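import Pool.Agent.Y18.LP.Gd

/-!
Nonvanishing of the sums for groups of families of local characters of order a power of `l`.
-/

set_option autoImplicit false

namespace Pool.Agent.Y18.LP

open Finset Pool.Agent.Y18.BSD

lemma span_fg {R : Subring ℂ} {S : Set ℂ} (h : (Submodule.span ℤ S).FG) :
    (Submodule.span R S).FG := by
  obtain ⟨T, hT⟩ := h
  refine ⟨T, le_antisymm ?_ ?_⟩
  · rw [Submodule.span_le]
    intro x hx
    have h1 : x ∈ Submodule.span ℤ S := by rw [← hT]; exact Submodule.subset_span hx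
    exact (Submodule.span_le_restrictScalars ℤ R S) h1
  · rw [Submodule.span_le]
    intro x hx
    have h1 : x ∈ Submodule.span ℤ (T : Set ℂ) := by rw [hT]; exact Submodule.subset_span hx
    exact (Submodule.span_le_restrictScalars ℤ R (T : Set ℂ)) h1

lemma pow_mod' {G : Type} [Group G] {x : G} {e : ℕ} (h : x ^ e = 1) (j : ℕ) :
    x ^ j = x ^ (j % e) := by
  conv_lhs => rw [← Nat.mod_add_div j e, pow_add, pow_mul, h, one_pow, mul_one]

lemma zpow_mod' {G : Type} [Group G] {x : G} {e : ℕ} (he : 0 < e) (h : x ^ e = 1) (j : ℤ) :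
    ∃ m : ℕ, x ^ j = x ^ m := by
  refine ⟨(j % (e : ℤ)).toNat, ?_⟩
  have h3 : 0 ≤ j % (e : ℤ) := Int.emod_nonneg _ (by exact_mod_cast he.ne')
  rw [← zpow_natCast, Int.toNat_of_nonneg h3]
  conv_lhs => rw [← Int.emod_add_mul_ediv j (e : ℤ)]
  rw [zpow_add, zpow_mul, zpow_natCast, h, one_zpow, mul_one]

lemma bt_one (f : ℚ → ℂ) : bt f 1 = f 0 := by
  have h1 : {q : ℕ | (1 : Fam) q ≠ 1} = ∅ := by
    ext q; simp
  have h2 : sp 1 = ∅ := by
    unfold sp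
    have : ({q : ℕ | (1 : Fam) q ≠ 1}).Finite := by rw [h1]; exact Set.finite_empty
    rw [dif_pos this]
    ext q
    simp
  have h3 : dd (sp 1) = 1 := by rw [h2]; rfl
  rw [bt_eq f 1 1 h3.symm]
  unfold psc ps
  rw [Fintype.sum_unique]
  have h4 : ((default : (ZMod 1)ˣ) : ZMod 1).val = 0 := by
    have := ZMod.val_lt ((default : (ZMod 1)ˣ) : ZMod 1)
    omega
  unfold FF
  rw [h4, XX_apply, h2]
  simp

section main

variable {ι : Type} [Fintype ι] {N : ι → ℕ} {f : ι → ℚ → ℂ} {a : ι → ℕ → ℂ}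

/-- the admissible primes -/
def AdS (N : ι → ℕ) (a : ι → ℕ → ℂ) (lam : Ideal (integralClosure ℤ ℂ)) : Set ℕ :=
  {q | q.Prime ∧ ∀ i, ¬ q ∣ N i ∧ ∀ x ∈ lam, (x : ℂ) ≠ a i q - 2}

/-- the ring and the ideal -/
theorem setup (hms : ∀ i, MS (N i) (f i) (a i)) (h0 : ∀ i, f i 0 ≠ 0) {l : ℕ} (hl : l.Prime)
    (n : ℕ) (lam : Ideal (integralClosure ℤ ℂ)) (hlam : lam.IsPrime)
    (hmem : (l : integralClosure ℤ ℂ) ∈ lam) :
    ∃ (R : Subring ℂ) (_ : IsNoetherianRing R) (P : Ideal R) (al : ι → ℕ → R), P.IsMaximal ∧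
      (∀ z : ℂ, z ^ (l ^ n) = 1 → z ∈ R) ∧ (∀ z : R, (z : ℂ) ^ (l ^ n) = 1 → 1 - z ∈ P) ∧
      ∀ i, ∀ q ∈ AdS N a lam, q.Prime ∧ ¬ q ∣ N i ∧ (al i q : ℂ) = a i q ∧ al i q - 2 ∉ P := by
  classical
  have he : 0 < l ^ n := pow_pos hl.pos n
  let W1 : Submodule ℤ ℂ := (∏ i, Submodule.span ℤ (Set.range (f i))) * Zr (l ^ n)
  have hfg : W1.FG := (fg_prod univ _ fun i _ => (hms i).fin).mul (Zr_fg he)
  have hfin : Module.Finite ℤ W1 := Module.Finite.iff_fg.2 hfg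
  have hw : (∏ i, f i 0) * 1 ∈ W1 := Submodule.mul_mem_mul
    (prod_mem' univ _ _ fun i _ => Submodule.subset_span ⟨0, rfl⟩) (Zr_one _)
  have hw0 : (∏ i, f i 0) * 1 ≠ 0 := by
    rw [mul_one]
    exact Finset.prod_ne_zero_iff.2 fun i _ => h0 i
  let R : Subring ℂ := Mult W1
  have hRfin : Module.Finite ℤ R := finite_Mult hw hw0
  have hnoeth : IsNoetherianRing R := IsNoetherianRing.of_finite ℤ R
  have hRroot : ∀ z : ℂ, z ^ (l ^ n) = 1 → z ∈ R := fun z hz => mul_Mult' (Zr_Mult hz)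
  have haR : ∀ i, ∀ q : ℕ, q.Prime → ¬ q ∣ N i → a i q ∈ R := by
    intro i q hq hqN
    refine mul_Mult (prod_Mult univ _ (Finset.mem_univ i) ?_)
    intro w hw
    induction hw using Submodule.span_induction with
    | mem x hx =>
      obtain ⟨r, rfl⟩ := hx
      rw [(hms i).hecke q hq hqN r]
      exact Submodule.add_mem _ (Submodule.subset_span ⟨_, rfl⟩)
        (Submodule.sum_mem _ fun u _ => Submodule.subset_span ⟨_, rfl⟩)
    | zero => rw [mul_zero]; exact Submodule.zero_mem _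
    | add x y _ _ h1 h2 => rw [mul_add]; exact Submodule.add_mem _ h1 h2
    | smul c x _ h => rw [mul_smul_comm]; exact Submodule.smul_mem _ _ h
  let P : Ideal R := lam.comap (incl hRfin)
  refine ⟨R, hnoeth, P, fun i q => if h : a i q ∈ R then ⟨a i q, h⟩ else 0,
    comap_maximal lam hRfin hlam hl hmem, hRroot, ?_, ?_⟩
  · intro z hz
    rw [Ideal.mem_comap, map_sub, map_one]
    refine one_sub_mem lam hlam hl hmem (n := n) _ ?_
    apply Subtype.ext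
    have h1 : ((incl hRfin z ^ (l ^ n) : integralClosure ℤ ℂ) : ℂ) =
        ((incl hRfin z : integralClosure ℤ ℂ) : ℂ) ^ (l ^ n) := rfl
    rw [h1, incl_coe, hz]
    rfl
  · rintro i q ⟨hq, hqA⟩
    obtain ⟨h1, h2⟩ := hqA i
    have h3 := haR i q hq h1
    refine ⟨hq, h1, ?_, ?_⟩
    · simp only [dif_pos h3]
    · simp only [dif_pos h3]
      intro h4
      rw [Ideal.mem_comap] at h4
      refine h2 _ h4 ?_
      rw [incl_coe]
      rfl

/-- **a small set of corrections** -/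
theorem corr (hms : ∀ i, MS (N i) (f i) (a i)) (h0 : ∀ i, f i 0 ≠ 0) {l : ℕ} (hl : l.Prime)
    (n : ℕ) (lam : Ideal (integralClosure ℤ ℂ)) (hlam : lam.IsPrime)
    (hmem : (l : integralClosure ℤ ℂ) ∈ lam) :
    ∃ V : ℕ, ∀ H : Subgroup Fam, Ok H (l ^ n) (AdS N a lam) →
      ∃ K : Finset Fam, K.card ≤ 2 ^ V ∧ (∀ k ∈ K, k ∈ H) ∧
        ∀ c ∈ H, ∃ k ∈ K, ∀ i, bt (f i) (c * k) ≠ 0 := by
  classical
  obtain ⟨R, hR0, P, al, hP, hR, hP1, hA⟩ := setup hms h0 hl n lam hlam hmem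
  have hx : ∏ i, f i 0 ∈ ∏ i, Submodule.span R (Set.range (f i)) :=
    prod_mem' univ _ _ fun i _ => Submodule.subset_span ⟨0, rfl⟩
  obtain ⟨V, hV⟩ := krull hP.ne_top (fg_prod univ _ fun i _ => span_fg (hms i).fin) hx
    (Finset.prod_ne_zero_iff.2 fun i _ => h0 i)
  refine ⟨V, fun H hH => ?_⟩
  have hg := Good.prod (Γ := H) (e := l ^ n) hP.isPrime univ
    (fun i => Submodule.span R (Set.range (f i))) (fun i (c : H) => bt (f i) c)
    (fun i _ => good (hms i) hR (al i) hP.isPrime hP1 hH (hA i))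
  obtain ⟨K, hK1, hK2⟩ := correction hR hP hP1 hg (V := V) (by
    have : ∏ i, bt (f i) ((1 : H) : Fam) = ∏ i, f i 0 :=
      Finset.prod_congr rfl fun i _ => bt_one (f i)
    rw [this]
    exact hV)
  refine ⟨(K.map (fun c : H => (c : Fam))).toFinset, ?_, ?_, ?_⟩
  · exact (List.toFinset_card_le _).trans (by rwa [List.length_map])
  · intro k hk
    rw [List.mem_toFinset, List.mem_map] at hk
    obtain ⟨c, _, rfl⟩ := hk
    exact c.2
  · intro c hc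
    obtain ⟨k, hk, h1⟩ := hK2 ⟨c, hc⟩
    refine ⟨k, ?_, fun i => ?_⟩
    · rw [List.mem_toFinset, List.mem_map]
      exact ⟨k, hk, rfl⟩
    · exact Finset.prod_ne_zero_iff.1 h1 i (Finset.mem_univ i)

/-- **one more generator** -/
theorem ext_one (hms : ∀ i, MS (N i) (f i) (a i)) (h0 : ∀ i, f i 0 ≠ 0) {l : ℕ} (hl : l.Prime)
    (n : ℕ) (lam : Ideal (integralClosure ℤ ℂ)) (hlam : lam.IsPrime)
    (hmem : (l : integralClosure ℤ ℂ) ∈ lam) (H : Subgroup Fam)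
    (hH : Ok H (l ^ n) (AdS N a lam)) (F : Subgroup Fam) (hF : (F : Set Fam).Finite) (hFH : F ≤ H)
    (hFn : ∀ c ∈ F, ∀ i, bt (f i) c ≠ 0) :
    ∃ K : Finset Fam, (∀ k ∈ K, k ∈ H) ∧ ∀ c ∈ H, ∃ k ∈ K, ∀ h ∈ F, ∀ j : ℕ, ∀ i,
      bt (f i) (h * (c * k) ^ j) ≠ 0 := by
  classical
  have he : 0 < l ^ n := pow_pos hl.pos n
  obtain ⟨R, hR0, P, al, hP, hR, hP1, hA⟩ := setup hms h0 hl n lam hlam hmem
  set s : Finset (ι × Fam × ℕ) := univ ×ˢ (hF.toFinset ×ˢ range (l ^ n)) with hs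
  have hmems : ∀ x : ι × Fam × ℕ, x ∈ s ↔ x.2.1 ∈ F ∧ x.2.2 < l ^ n := by
    intro x
    rw [hs, Finset.mem_product, Finset.mem_product, Set.Finite.mem_toFinset, Finset.mem_range]
    simp
  have hg := Good.prod (Γ := H) (e := l ^ n) hP.isPrime s
    (fun x => Submodule.span R (Set.range (f x.1)))
    (fun x (c : H) => bt (f x.1) (x.2.1 * (c : Fam) ^ x.2.2))
    (fun x hx => by
      have h1 := (good (hms x.1) hR (al x.1) hP.isPrime hP1 hH (hA x.1)).comp hR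
        ⟨x.2.1, hFH ((hmems x).1 hx).1⟩ x.2.2
      exact h1)
  have hval : ∏ x ∈ s, bt (f x.1) (x.2.1 * ((1 : H) : Fam) ^ x.2.2) ≠ 0 := by
    refine Finset.prod_ne_zero_iff.2 fun x hx => ?_
    have e1 : ((1 : H) : Fam) ^ x.2.2 = 1 := one_pow x.2.2
    have e3 : x.2.1 * ((1 : H) : Fam) ^ x.2.2 = x.2.1 := by
      rw [e1]
      exact mul_one x.2.1
    rw [e3]
    exact hFn _ ((hmems x).1 hx).1 _
  obtain ⟨V, hV⟩ := krull hP.ne_top (fg_prod s _ fun i _ => span_fg (hms i.1).fin) (hg.mem 1) hval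
  obtain ⟨K, hK1, hK2⟩ := correction hR hP hP1 hg (V := V) hV
  refine ⟨(K.map (fun c : H => (c : Fam))).toFinset, ?_, ?_⟩
  · intro k hk
    rw [List.mem_toFinset, List.mem_map] at hk
    obtain ⟨c, _, rfl⟩ := hk
    exact c.2
  · intro c hc
    obtain ⟨k, hk, h1⟩ := hK2 ⟨c, hc⟩
    refine ⟨k, ?_, fun h hh j i => ?_⟩
    · rw [List.mem_toFinset, List.mem_map]
      exact ⟨k, hk, rfl⟩
    · have hpow : (c * (k : Fam)) ^ j = (c * (k : Fam)) ^ (j % l ^ n) := by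
        have h2 : (c * (k : Fam)) ^ (l ^ n) = 1 := hH.pow _ (H.mul_mem hc k.2)
        exact pow_mod' (G := Fam) (x := c * (k : Fam)) h2 j
      rw [hpow]
      exact Finset.prod_ne_zero_iff.1 h1 (i, h, j % l ^ n)
        ((hmems _).2 ⟨hh, Nat.mod_lt _ he⟩)

/-- **infinite subgroups** -/
theorem infinite (hms : ∀ i, MS (N i) (f i) (a i)) (h0 : ∀ i, f i 0 ≠ 0) {l : ℕ} (hl : l.Prime)
    (n : ℕ) (lam : Ideal (integralClosure ℤ ℂ)) (hlam : lam.IsPrime)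
    (hmem : (l : integralClosure ℤ ℂ) ∈ lam) (H : Subgroup Fam)
    (hH : Ok H (l ^ n) (AdS N a lam)) (hinf : (H : Set Fam).Infinite) (F : Subgroup Fam)
    (hFH : F ≤ H) (hFn : ∀ c ∈ F, ∀ i, bt (f i) c ≠ 0) :
    ∃ H0 : Subgroup Fam, F ≤ H0 ∧ H0 ≤ H ∧ (H0 : Set Fam).Infinite ∧
      ∀ c ∈ H0, ∀ i, bt (f i) c ≠ 0 := by
  classical
  let Z : Set (Subgroup Fam) := {G | G ≤ H ∧ ∀ c ∈ G, ∀ i, bt (f i) c ≠ 0}
  obtain ⟨G, hFG, hG⟩ := zorn_le_nonempty₀ Z (by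
    intro C hC hchain G0 hG0
    refine ⟨sSup C, ⟨sSup_le fun G hG => (hC hG).1, fun c hc i => ?_⟩, fun G hG => le_sSup hG⟩
    have hdir : DirectedOn (· ≤ ·) C := hchain.directedOn
    rw [Subgroup.mem_sSup_of_directedOn ⟨G0, hG0⟩ hdir] at hc
    obtain ⟨G, hG, hcG⟩ := hc
    exact (hC hG).2 c hcG i) F ⟨hFH, hFn⟩
  refine ⟨G, hFG, hG.prop.1, ?_, hG.prop.2⟩
  intro hfin
  obtain ⟨K, hK1, hK2⟩ := ext_one hms h0 hl n lam hlam hmem H hH G hfin hG.prop.1 hG.prop.2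
  -- an element of `H` all of whose translates are outside of `G`
  have hbad : (⋃ k ∈ K, (fun g : Fam => g * k⁻¹) '' (G : Set Fam)).Finite :=
    Set.Finite.biUnion (Finset.finite_toSet K) fun k _ => hfin.image _
  obtain ⟨c, hcH, hc⟩ := hinf.exists_notMem_finite hbad
  obtain ⟨k, hk, h1⟩ := hK2 c hcH
  have hckG : c * k ∉ G := by
    intro h2
    apply hc
    simp only [Set.mem_iUnion]
    exact ⟨k, hk, c * k, h2, mul_inv_cancel_right c k⟩
  have hckH : c * k ∈ H := H.mul_mem hcH (hK1 k hk)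
  have hle : G ⊔ Subgroup.zpowers (c * k) ∈ Z := by
    refine ⟨sup_le hG.prop.1 (by rwa [Subgroup.zpowers_le]), ?_⟩
    intro x hx i
    obtain ⟨g, hg, y, hy, rfl⟩ := (Subgroup.mem_sup (C := Fam)).1 hx
    obtain ⟨j, rfl⟩ := Subgroup.mem_zpowers_iff.1 hy
    have he : 0 < l ^ n := pow_pos hl.pos n
    have h2 : (c * k) ^ (l ^ n) = 1 := hH.pow _ hckH
    obtain ⟨m, hm⟩ : ∃ m : ℕ, (c * k) ^ j = (c * k) ^ m := zpow_mod' (G := Fam) (x := c * k) he h2 j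
    have h3 : g * (c * k) ^ j = g * (c * k) ^ m := congrArg (fun y => g * y) hm
    intro h5
    refine h1 g hg m i ?_
    have h6 : bt (f i) (g * (c * k) ^ j) = bt (f i) (g * (c * k) ^ m) := congrArg (bt (f i)) h3
    exact h6.symm.trans h5
  have h3 := hG.le_of_ge hle le_sup_left
  exact hckG (h3 (Subgroup.mem_sup_right (Subgroup.mem_zpowers _)))

end main

end Pool.Agent.Y18.LP
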