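import Pool.Agent.Y18.LP.Abs

/-!
The Dirichlet character of a family of local characters.
-/

set_option autoImplicit false

namespace Pool.Agent.Y18.LP

open Finset Pool.Agent.Y18.BSD

/-- the value at `m` of the character with the components `c` -/
noncomputable def cvl (c : Fam) (m : ℕ) : ℂ :=
  ∏ q ∈ sp c, if h : m.Coprime q then (c q (ZMod.unitOfCoprime m h) : ℂ) else 0

/-- the primitive Dirichlet character -/
noncomputable def chi (c : Fam) : DirichletCharacter ℂ (dd (sp c)) :=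
  MulChar.ofUnitHom (XX c (sp c) (dd (sp c)))

lemma chi_unit (c : Fam) (u : (ZMod (dd (sp c)))ˣ) :
    chi c (u : ZMod (dd (sp c))) = (XX c (sp c) (dd (sp c)) u : ℂ) := by
  unfold chi
  rw [MulChar.ofUnitHom_coe]

lemma unitsMap_nat {M q m : ℕ} (h : q ∣ M) (hm : m.Coprime M) :
    ZMod.unitsMap h (ZMod.unitOfCoprime m hm) =
      ZMod.unitOfCoprime m (hm.coprime_dvd_right h) := by
  apply Units.ext
  rw [ZMod.unitsMap_val, ZMod.coe_unitOfCoprime, ZMod.coe_unitOfCoprime, ZMod.cast_natCast h]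

lemma XX_nat (c : Fam) {T : Finset ℕ} {M m : ℕ} (hT : ∀ q ∈ T, q ∣ M) (hm : m.Coprime M) :
    ((XX c T M (ZMod.unitOfCoprime m hm) : ℂˣ) : ℂ) =
      ∏ q ∈ T, if h : m.Coprime q then (c q (ZMod.unitOfCoprime m h) : ℂ) else 0 := by
  rw [XX_apply, ← Units.coeHom_apply, map_prod]
  refine Finset.prod_congr rfl fun q hq => ?_
  rw [dif_pos (hm.coprime_dvd_right (hT q hq)), Units.coeHom_apply]
  unfold loc
  rw [dif_pos (hT q hq), MonoidHom.comp_apply, unitsMap_nat]

lemma chi_nat (c : Fam) (m : ℕ) : chi c (m : ZMod (dd (sp c))) = cvl c m := by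
  by_cases hm : m.Coprime (dd (sp c))
  · have h1 := chi_unit c (ZMod.unitOfCoprime m hm)
    rw [ZMod.coe_unitOfCoprime, XX_nat c (fun q hq => dvd_dd hq) hm] at h1
    exact h1
  · have h1 : ¬ IsUnit ((m : ZMod (dd (sp c)))) := fun h => hm ((ZMod.isUnit_iff_coprime _ _).1 h)
    rw [MulChar.map_nonunit _ h1]
    unfold cvl
    unfold dd at hm
    rw [Nat.coprime_prod_right_iff] at hm
    push Not at hm
    obtain ⟨q, hq, hqm⟩ := hm
    symm
    refine Finset.prod_eq_zero hq ?_
    rw [dif_neg hqm]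

lemma exists_unit {q M' : ℕ} (hco : Nat.Coprime q M') [NeZero q] (v : (ZMod q)ˣ) :
    ∃ m : ℕ, m.Coprime (q * M') ∧ (m : ZMod q) = v ∧ (m : ZMod M') = 1 := by
  obtain ⟨m, h1, h2⟩ := Nat.chineseRemainder hco (v : ZMod q).val 1
  have h3 : (m : ZMod q) = v := by
    rw [(ZMod.natCast_eq_natCast_iff _ _ _).2 h1, ZMod.natCast_zmod_val]
  have h4 : (m : ZMod M') = 1 := by
    rw [(ZMod.natCast_eq_natCast_iff _ _ _).2 h2, Nat.cast_one]
  refine ⟨m, Nat.Coprime.mul_right ?_ ?_, h3, h4⟩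
  · rw [← ZMod.isUnit_iff_coprime, h3]
    exact v.isUnit
  · rw [← ZMod.isUnit_iff_coprime, h4]
    exact isUnit_one

theorem chi_primitive (c : Fam) (hfin : {q | c q ≠ 1}.Finite) (hp : ∀ q ∈ sp c, q.Prime) :
    (chi c).IsPrimitive := by
  classical
  unfold DirichletCharacter.IsPrimitive
  by_contra hne
  set M := dd (sp c) with hM
  have hM0 : M ≠ 0 := dd_ne_zero hp
  have : NeZero M := ⟨hM0⟩
  have hdvd : (chi c).conductor ∣ M := (chi c).conductor_dvd_level
  obtain ⟨k, hk⟩ := hdvd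
  have hk1 : k ≠ 1 := by
    rintro rfl
    rw [mul_one] at hk
    exact hne hk.symm
  obtain ⟨q, hq, hqk⟩ := Nat.exists_prime_and_dvd hk1
  -- q belongs to the support
  have hqM : q ∣ M := hqk.trans (Dvd.intro_left _ hk.symm)
  have hqS : q ∈ sp c := by
    rw [hM] at hqM
    unfold dd at hqM
    obtain ⟨p, hpS, hqp⟩ := (hq.prime.dvd_finsetProd_iff _).1 hqM
    rwa [(Nat.prime_dvd_prime_iff_eq hq (hp p hpS)).1 hqp]
  set M' := dd ((sp c).erase q) with hM'
  have hMM' : M = q * M' := by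
    rw [hM, hM', ← dd_insert (Finset.notMem_erase q (sp c)), Finset.insert_erase hqS]
  have hco : Nat.Coprime q M' := dd_coprime hq (fun p hpp => hp p (Finset.mem_of_mem_erase hpp))
    (Finset.notMem_erase q _)
  have hcond : (chi c).conductor ∣ M' := by
    obtain ⟨k', rfl⟩ := hqk
    refine ⟨k', ?_⟩
    have h1 : q * M' = q * ((chi c).conductor * k') := by
      rw [← hMM', hk]; ring
    exact Nat.eq_of_mul_eq_mul_left hq.pos h1
  have hfac : (chi c).FactorsThrough (chi c).conductor := (chi c).factorsThrough_conductor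
  have : NeZero q := ⟨hq.ne_zero⟩
  have hcq : c q = 1 := by
    ext v
    obtain ⟨m, hm1, hm2, hm3⟩ := exists_unit hco v
    rw [← hMM'] at hm1
    -- the value of the character at `m`
    have h1 : chi c (m : ZMod M) = 1 := by
      obtain ⟨hd, ψ, hψ⟩ := hfac
      have hmu : IsUnit (m : ZMod M) := (ZMod.isUnit_iff_coprime _ _).2 hm1
      rw [hψ]
      obtain ⟨u, hu⟩ := hmu
      rw [← hu, DirichletCharacter.changeLevel_eq_cast_of_dvd, hu, ZMod.cast_natCast hd]
      have h5 : (m : ZMod (chi c).conductor) = 1 := by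
        have h6 := congrArg (ZMod.castHom hcond (ZMod (chi c).conductor)) hm3
        rwa [map_natCast, map_one] at h6
      rw [h5, map_one]
    have h2 : chi c (m : ZMod M) = (c q v : ℂ) := by
      refine (chi_nat c m).trans ?_
      unfold cvl
      rw [← Finset.mul_prod_erase _ _ hqS]
      have h3 : ∏ p ∈ (sp c).erase q, (if h : m.Coprime p then
          (c p (ZMod.unitOfCoprime m h) : ℂ) else 0) = 1 := by
        refine Finset.prod_eq_one fun p hpp => ?_
        have hpM' : p ∣ M' := dvd_dd hpp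
        have h6 : (m : ZMod p) = 1 := by
          have h7 := congrArg (ZMod.castHom hpM' (ZMod p)) hm3
          rwa [map_natCast, map_one] at h7
        have h8 : m.Coprime p := hm1.coprime_dvd_right (hpM'.trans ⟨q, by rw [hMM', mul_comm]⟩)
        rw [dif_pos h8]
        have h9 : ZMod.unitOfCoprime m h8 = 1 := by
          apply Units.ext
          rw [ZMod.coe_unitOfCoprime, h6, Units.val_one]
        rw [h9, map_one, Units.val_one]
      have h4 : m.Coprime q := hm1.coprime_dvd_right ⟨M', hMM'⟩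
      rw [h3, mul_one, dif_pos h4]
      have h5 : ZMod.unitOfCoprime m h4 = v := by
        apply Units.ext
        rw [ZMod.coe_unitOfCoprime, hm2]
      rw [h5]
    rw [h1] at h2
    rw [MonoidHom.one_apply, Units.val_one]
    exact h2.symm
  exact (mem_sp hfin q).1 hqS hcq

lemma sp_inv {c : Fam} (hfin : {q | c q ≠ 1}.Finite) : sp c⁻¹ = sp c := by
  have h1 : {q | (c⁻¹ : Fam) q ≠ 1}.Finite := by
    refine hfin.subset fun q hq => ?_
    intro h
    apply hq
    have h2 : (c q)⁻¹ = 1 := by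
      rw [h]
      ext x
      simp
    exact h2
  ext q
  rw [mem_sp h1, mem_sp hfin]
  have h2 : (c⁻¹ : Fam) q = (c q)⁻¹ := rfl
  rw [h2]
  exact @inv_ne_one ((ZMod q)ˣ →* ℂˣ) _ (c q)

/-- the sum for the inverse character -/
lemma bt_inv (f : ℚ → ℂ) {c : Fam} (hfin : {q | c q ≠ 1}.Finite) [hM : NeZero (dd (sp c))] :
    bt f c⁻¹ = ∑ u : (ZMod (dd (sp c)))ˣ, (chi c)⁻¹ (u : ZMod (dd (sp c))) *
      f (((u : ZMod (dd (sp c))).val : ℚ) / (dd (sp c) : ℕ)) := by
  rw [bt_eq f c⁻¹ (dd (sp c)) (by rw [sp_inv hfin]), sp_inv hfin]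
  unfold psc ps FF
  refine Finset.sum_congr rfl fun u _ => ?_
  congr 1
  rw [MulChar.inv_apply_eq_inv', chi_unit, XX_inv, MonoidHom.inv_apply, Units.val_inv_eq_inv_val]

end Pool.Agent.Y18.LP
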