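import Mathlib

/-!
Functions on a commutative group `Γ` of exponent `e` with values in a submodule of `ℂ`, which are
combinations of characters, and the existence of corrections: if a function agrees up to units with
such combinations then it has a nonzero value in every translate of a small set.
-/

set_option autoImplicit false

namespace Pool.Agent.Y18.LP

open Finset

variable {Γ : Type} [CommGroup Γ] {R : Subring ℂ}

/-- the combinations of the characters of exponent `e` with coefficients in `W` -/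
def Comb (Γ : Type) [CommGroup Γ] {R : Subring ℂ} (e : ℕ) (W : Submodule R ℂ) :
    AddSubgroup (Γ → ℂ) :=
  AddSubgroup.closure {A | ∃ w ∈ W, ∃ E : Γ →* ℂ, (∀ g, E g ^ e = 1) ∧ A = fun g => w * E g}

variable {e : ℕ} {W : Submodule R ℂ}

lemma Comb.gen {w : ℂ} (hw : w ∈ W) (E : Γ →* ℂ) (hE : ∀ g, E g ^ e = 1) :
    (fun g => w * E g) ∈ Comb Γ e W :=
  AddSubgroup.subset_closure ⟨w, hw, E, hE, rfl⟩

/-- the values are in `W` if the roots of unity are in `R` -/
lemma Comb.val (hR : ∀ z : ℂ, z ^ e = 1 → z ∈ R) {A : Γ → ℂ} (hA : A ∈ Comb Γ e W) (g : Γ) :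
    A g ∈ W := by
  induction hA using AddSubgroup.closure_induction with
  | mem x hx =>
    obtain ⟨w, hw, E, hE, rfl⟩ := hx
    have h1 := W.smul_mem (⟨E g, hR _ (hE g)⟩ : R) hw
    have h2 : (⟨E g, hR _ (hE g)⟩ : R) • w = w * E g := by
      rw [Subring.smul_def, smul_eq_mul, mul_comm]
    rwa [h2] at h1
  | zero => exact W.zero_mem
  | add x y _ _ h1 h2 => exact W.add_mem h1 h2
  | neg x _ h => exact W.neg_mem h

lemma Comb.mono {W' : Submodule R ℂ} (h : W ≤ W') : Comb Γ e W ≤ Comb Γ e W' :=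
  AddSubgroup.closure_mono fun _ ⟨w, hw, E, hE, he⟩ => ⟨w, h hw, E, hE, he⟩

/-- difference -/
def dif (g : Γ) (A : Γ → ℂ) : Γ → ℂ := fun x => A x - A (g * x)

lemma Comb.dif_mem (hR : ∀ z : ℂ, z ^ e = 1 → z ∈ R) (P : Ideal R)
    (hP : ∀ z : R, (z : ℂ) ^ e = 1 → 1 - z ∈ P) {A : Γ → ℂ} (hA : A ∈ Comb Γ e W) (g : Γ) :
    dif g A ∈ Comb Γ e (P • W) := by
  induction hA using AddSubgroup.closure_induction with
  | mem x hx =>
    obtain ⟨w, hw, E, hE, rfl⟩ := hx
    have h1 : (1 - (⟨E g, hR _ (hE g)⟩ : R)) • w ∈ P • W :=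
      Submodule.smul_mem_smul (hP _ (hE g)) hw
    have h2 : (1 - (⟨E g, hR _ (hE g)⟩ : R)) • w = w * (1 - E g) := by
      rw [Subring.smul_def, smul_eq_mul, mul_comm]
      rfl
    rw [h2] at h1
    have h3 := Comb.gen h1 E hE
    have h4 : dif g (fun g => w * E g) = fun x => w * (1 - E g) * E x := by
      funext x
      unfold dif
      simp only [map_mul]
      ring
    rw [h4]
    exact h3
  | zero =>
    have : dif g (0 : Γ → ℂ) = 0 := by funext x; simp [dif]
    rw [this]
    exact AddSubgroup.zero_mem _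
  | add x y _ _ h1 h2 =>
    have : dif g (x + y) = dif g x + dif g y := by funext z; simp [dif]; ring
    rw [this]
    exact AddSubgroup.add_mem _ h1 h2
  | neg x _ h =>
    have : dif g (-x) = - dif g x := by funext z; simp [dif]; ring
    rw [this]
    exact AddSubgroup.neg_mem _ h

/-- the composition with `x ↦ h * x ^ j` -/
lemma Comb.comp (hR : ∀ z : ℂ, z ^ e = 1 → z ∈ R) {A : Γ → ℂ} (hA : A ∈ Comb Γ e W) (h : Γ)
    (j : ℕ) : (fun x => A (h * x ^ j)) ∈ Comb Γ e W := by
  induction hA using AddSubgroup.closure_induction with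
  | mem x hx =>
    obtain ⟨w, hw, E, hE, rfl⟩ := hx
    have h1 := W.smul_mem (⟨E h, hR _ (hE h)⟩ : R) hw
    have h2 : (⟨E h, hR _ (hE h)⟩ : R) • w = w * E h := by
      rw [Subring.smul_def, smul_eq_mul, mul_comm]
    rw [h2] at h1
    let E' : Γ →* ℂ := { toFun := fun x => E x ^ j, map_one' := by simp,
                         map_mul' := fun x y => by rw [map_mul, mul_pow] }
    have h3 := Comb.gen (Γ := Γ) (e := e) h1 E' (fun g => by
      show (E g ^ j) ^ e = 1
      rw [← pow_mul, mul_comm, pow_mul, hE, one_pow])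
    have h4 : (fun x => (fun g => w * E g) (h * x ^ j)) = fun g => w * E h * E' g := by
      funext x
      show w * E (h * x ^ j) = w * E h * E x ^ j
      rw [map_mul, map_pow]
      ring
    rw [h4]
    exact h3
  | zero => exact AddSubgroup.zero_mem _
  | add x y _ _ h1 h2 => exact AddSubgroup.add_mem _ h1 h2
  | neg x _ h => exact AddSubgroup.neg_mem _ h

/-- products -/
lemma Comb.mul {W' : Submodule R ℂ} {A B : Γ → ℂ} (hA : A ∈ Comb Γ e W) (hB : B ∈ Comb Γ e W') :
    (fun x => A x * B x) ∈ Comb Γ e (W * W') := by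
  induction hA using AddSubgroup.closure_induction with
  | mem x hx =>
    obtain ⟨w, hw, E, hE, rfl⟩ := hx
    induction hB using AddSubgroup.closure_induction with
    | mem y hy =>
      obtain ⟨w', hw', E', hE', rfl⟩ := hy
      have h1 := Comb.gen (Γ := Γ) (e := e) (Submodule.mul_mem_mul hw hw') (E * E') (fun g => by
        rw [MonoidHom.mul_apply, mul_pow, hE, hE', one_mul])
      have h2 : (fun x => (fun g => w * E g) x * (fun g => w' * E' g) x) =
          fun g => w * w' * (E * E') g := by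
        funext x
        show w * E x * (w' * E' x) = w * w' * (E x * E' x)
        ring
      rw [h2]
      exact h1
    | zero =>
      have : (fun x => (fun g => w * E g) x * (0 : Γ → ℂ) x) = 0 := by funext x; simp
      rw [this]
      exact AddSubgroup.zero_mem _
    | add y z _ _ h1 h2 =>
      have : (fun x => (fun g => w * E g) x * (y + z) x) =
          (fun x => (fun g => w * E g) x * y x) + fun x => (fun g => w * E g) x * z x := by
        funext x; simp [mul_add]
      rw [this]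
      exact AddSubgroup.add_mem _ h1 h2
    | neg y _ h =>
      have : (fun x => (fun g => w * E g) x * (-y) x) = -(fun x => (fun g => w * E g) x * y x) := by
        funext x; simp
      rw [this]
      exact AddSubgroup.neg_mem _ h
  | zero =>
    have : (fun x => (0 : Γ → ℂ) x * B x) = 0 := by funext x; simp
    rw [this]
    exact AddSubgroup.zero_mem _
  | add y z _ _ h1 h2 =>
    have : (fun x => (y + z) x * B x) = (fun x => y x * B x) + fun x => z x * B x := by
      funext x; simp [add_mul]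
    rw [this]
    exact AddSubgroup.add_mem _ h1 h2
  | neg y _ h =>
    have : (fun x => (-y) x * B x) = -(fun x => y x * B x) := by funext x; simp
    rw [this]
    exact AddSubgroup.neg_mem _ h

/-- iterated differences -/
def DD : List Γ → (Γ → ℂ) → Γ → ℂ
  | [], A => A
  | g :: L, A => dif g (DD L A)

lemma DD_mem (hR : ∀ z : ℂ, z ^ e = 1 → z ∈ R) (P : Ideal R)
    (hP : ∀ z : R, (z : ℂ) ^ e = 1 → 1 - z ∈ P) {A : Γ → ℂ} (hA : A ∈ Comb Γ e W) (L : List Γ) :
    DD L A ∈ Comb Γ e (P ^ L.length • W) := by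
  induction L with
  | nil => simpa [DD] using hA
  | cons g L ih =>
    have h1 := Comb.dif_mem hR P hP ih g
    rw [← Submodule.mul_smul] at h1
    rw [List.length_cons, pow_succ']
    exact h1

/-- the products of the sublists -/
def PL : List Γ → List Γ
  | [] => [1]
  | g :: L => PL L ++ (PL L).map (fun x => g * x)

lemma PL_length (L : List Γ) : (PL L).length = 2 ^ L.length := by
  induction L with
  | nil => simp [PL]
  | cons g L ih => rw [PL, List.length_append, List.length_map, ih, List.length_cons, pow_succ]; ring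

lemma PL_mem {H : Set Γ} (h1 : (1 : Γ) ∈ H) (hm : ∀ x ∈ H, ∀ y ∈ H, x * y ∈ H) (L : List Γ)
    (hL : ∀ g ∈ L, g ∈ H) : ∀ g ∈ PL L, g ∈ H := by
  induction L with
  | nil =>
    intro g hg
    simp only [PL, List.mem_singleton] at hg
    rw [hg]; exact h1
  | cons g0 L ih =>
    have ih' := ih fun g hg => hL g (List.mem_cons_of_mem _ hg)
    intro g hg
    simp only [PL, List.mem_append, List.mem_map] at hg
    rcases hg with hg | ⟨x, hx, rfl⟩
    · exact ih' g hg
    · exact hm _ (hL g0 List.mem_cons_self) _ (ih' x hx)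

/-- congruent functions have congruent differences -/
lemma DD_congr {V : Submodule R ℂ} {A B : Γ → ℂ} {c : R} (L : List Γ) :
    ∀ x : Γ, (∀ k ∈ PL L, A (x * k) - c • B (x * k) ∈ V) → DD L A x - c • DD L B x ∈ V := by
  induction L with
  | nil =>
    intro x h
    have := h 1 (by simp [PL])
    simpa [DD] using this
  | cons g L ih =>
    intro x h
    have h1 := ih x fun k hk => h k (by simp only [PL, List.mem_append]; exact Or.inl hk)
    have h2 := ih (g * x) fun k hk => by
      have := h (g * k) (by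
        simp only [PL, List.mem_append, List.mem_map]
        exact Or.inr ⟨k, hk, rfl⟩)
      rwa [show x * (g * k) = g * x * k by rw [← mul_assoc, mul_comm x g]] at this
    have h3 := V.sub_mem h1 h2
    have h4 : DD (g :: L) A x - c • DD (g :: L) B x =
        (DD L A x - c • DD L B x) - (DD L A (g * x) - c • DD L B (g * x)) := by
      show (DD L A x - DD L A (g * x)) - c • (DD L B x - DD L B (g * x)) = _
      rw [smul_sub]
      ring
    rw [h4]
    exact h3

/-- if a difference is not in `V`, then some value is not in `V` -/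
lemma DD_exists {V : Submodule R ℂ} {B : Γ → ℂ} (L : List Γ) :
    ∀ x : Γ, DD L B x ∉ V → ∃ k ∈ PL L, B (x * k) ∉ V := by
  induction L with
  | nil =>
    intro x h
    exact ⟨1, by simp [PL], by simpa [DD] using h⟩
  | cons g L ih =>
    intro x h
    by_cases h1 : DD L B x ∈ V
    · have h2 : DD L B (g * x) ∉ V := fun h2 => h (V.sub_mem h1 h2)
      obtain ⟨k, hk, h3⟩ := ih _ h2
      refine ⟨g * k, ?_, ?_⟩
      · simp only [PL, List.mem_append, List.mem_map]
        exact Or.inr ⟨k, hk, rfl⟩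
      · rwa [show x * (g * k) = g * x * k by rw [← mul_assoc, mul_comm x g]]
    · obtain ⟨k, hk, h3⟩ := ih x h1
      exact ⟨k, by simp only [PL, List.mem_append]; exact Or.inl hk, h3⟩

lemma DD_val_mem {V : Submodule R ℂ} {B : Γ → ℂ} (hB : ∀ x, B x ∈ V) (L : List Γ) :
    ∀ x, DD L B x ∈ V := by
  induction L with
  | nil => exact hB
  | cons g L ih => exact fun x => V.sub_mem (ih x) (ih (g * x))

/-- `β` agrees on finite sets with combinations of characters, up to units -/
structure Good (e : ℕ) (P : Ideal R) (W : Submodule R ℂ) (β : Γ → ℂ) : Prop where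
  mem : ∀ x, β x ∈ W
  ex : ∃ d : Γ → R, (∀ x, d x ∉ P) ∧ ∀ Q : Finset Γ, ∃ A ∈ Comb Γ e W, ∃ c : R, c ∉ P ∧
    ∀ x ∈ Q, ∃ o : R, o * d x - c ∈ P ∧ A x = o • β x

lemma Good.comp (hR : ∀ z : ℂ, z ^ e = 1 → z ∈ R) {P : Ideal R} {β : Γ → ℂ} (hβ : Good e P W β)
    (h : Γ) (j : ℕ) : Good e P W (fun x => β (h * x ^ j)) := by
  classical
  refine ⟨fun x => hβ.mem _, ?_⟩
  obtain ⟨d, hd, hQ⟩ := hβ.ex
  refine ⟨fun x => d (h * x ^ j), fun x => hd _, fun Q => ?_⟩
  obtain ⟨A, hA, c, hc, h1⟩ := hQ (Q.image fun x => h * x ^ j)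
  exact ⟨fun x => A (h * x ^ j), Comb.comp hR hA h j, c, hc, fun x hx =>
    h1 _ (Finset.mem_image_of_mem _ hx)⟩

lemma Good.mul {P : Ideal R} (hP : P.IsPrime) {W' : Submodule R ℂ} {β β' : Γ → ℂ}
    (hβ : Good e P W β) (hβ' : Good e P W' β') : Good e P (W * W') (fun x => β x * β' x) := by
  refine ⟨fun x => Submodule.mul_mem_mul (hβ.mem x) (hβ'.mem x), ?_⟩
  obtain ⟨d, hd, hQ⟩ := hβ.ex
  obtain ⟨d', hd', hQ'⟩ := hβ'.ex
  refine ⟨fun x => d x * d' x, fun x h => ?_, fun Q => ?_⟩
  · rcases hP.mem_or_mem h with h | h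
    · exact hd x h
    · exact hd' x h
  · obtain ⟨A, hA, c, hc, h1⟩ := hQ Q
    obtain ⟨A', hA', c', hc', h1'⟩ := hQ' Q
    refine ⟨fun x => A x * A' x, Comb.mul hA hA', c * c', fun h => ?_, fun x hx => ?_⟩
    · rcases hP.mem_or_mem h with h | h
      · exact hc h
      · exact hc' h
    · obtain ⟨o, ho, he⟩ := h1 x hx
      obtain ⟨o', ho', he'⟩ := h1' x hx
      refine ⟨o * o', ?_, ?_⟩
      · have h2 : o * o' * (d x * d' x) - c * c' =
            (o * d x - c) * (o' * d' x) + c * (o' * d' x - c') := by ring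
        rw [h2]
        exact P.add_mem (P.mul_mem_right _ ho) (P.mul_mem_left _ ho')
      · simp only [he, he', Subring.smul_def, smul_eq_mul, Subring.coe_mul]
        ring

lemma Good.one {P : Ideal R} (hP : P.IsPrime) : Good (Γ := Γ) e P 1 (fun _ => 1) := by
  have h1 : (1 : ℂ) ∈ (1 : Submodule R ℂ) := Submodule.one_le.1 le_rfl
  refine ⟨fun _ => h1, fun _ => 1, fun _ h => hP.ne_top ((Ideal.eq_top_iff_one _).2 h),
    fun Q => ⟨fun _ => 1, ?_, 1, fun h => hP.ne_top ((Ideal.eq_top_iff_one _).2 h),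
      fun x _ => ⟨1, by simp, by simp⟩⟩⟩
  have := Comb.gen (Γ := Γ) (e := e) h1 1 (fun g => by simp)
  simpa using this

lemma Good.prod {ι : Type} {P : Ideal R} (hP : P.IsPrime) (s : Finset ι) (W : ι → Submodule R ℂ)
    (β : ι → Γ → ℂ) (h : ∀ i ∈ s, Good e P (W i) (β i)) :
    Good e P (∏ i ∈ s, W i) (fun x => ∏ i ∈ s, β i x) := by
  classical
  induction s using Finset.induction_on with
  | empty => simpa using Good.one hP
  | insert i s hi ih =>
    rw [Finset.prod_insert hi]
    simp only [Finset.prod_insert hi]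
    exact (h i (Finset.mem_insert_self i s)).mul hP
      (ih fun j hj => h j (Finset.mem_insert_of_mem hj))

/-- **Corrections.** -/
theorem correction (hR : ∀ z : ℂ, z ^ e = 1 → z ∈ R) {P : Ideal R} (hP : P.IsMaximal)
    (hP1 : ∀ z : R, (z : ℂ) ^ e = 1 → 1 - z ∈ P) {β : Γ → ℂ} (hβ : Good e P W β) {V : ℕ}
    (hV : β 1 ∉ P ^ (V + 1) • W) :
    ∃ K : List Γ, K.length ≤ 2 ^ V ∧ ∀ x, ∃ k ∈ K, β (x * k) ≠ 0 := by
  classical
  obtain ⟨d, hd, hQ⟩ := hβ.ex
  have hprime := hP.isPrime
  -- inverses modulo `P`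
  have hinv : ∀ r : R, r ∉ P → ∃ u : R, u * r - 1 ∈ P := by
    intro r hr
    obtain ⟨u, hu⟩ := hP.exists_inv hr
    obtain ⟨v, hv, h1⟩ := hu
    refine ⟨u, ?_⟩
    have : u * r - 1 = -v := by linear_combination h1
    rw [this]
    exact P.neg_mem hv
  choose u hu using fun x => hinv (d x) (hd x)
  -- the minimal order
  have hex : ∃ j : ℕ, ∃ x, β x ∉ P ^ (j + 1) • W := ⟨V, 1, hV⟩
  set μ := Nat.find hex with hμ
  obtain ⟨xs, hxs⟩ := Nat.find_spec hex
  have hμV : μ ≤ V := Nat.find_min' hex ⟨1, hV⟩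
  have hmin : ∀ x, β x ∈ P ^ μ • W := by
    intro x
    rcases Nat.eq_zero_or_pos μ with h | h
    · rw [h, pow_zero, Ideal.one_eq_top, Submodule.top_smul]
      exact hβ.mem x
    · by_contra hcon
      have h1 := Nat.find_min hex (m := μ - 1) (by omega)
      apply h1
      refine ⟨x, ?_⟩
      rwa [Nat.sub_add_cancel h]
  have hPV : ∀ r ∈ P, ∀ w ∈ P ^ μ • W, r • w ∈ P ^ (μ + 1) • W := by
    intro r hr w hw
    rw [pow_succ', Submodule.mul_smul]
    exact Submodule.smul_mem_smul hr hw
  -- multiplication by units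
  have hunit : ∀ r : R, r ∉ P → ∀ w ∈ P ^ μ • W, r • w ∈ P ^ (μ + 1) • W →
      w ∈ P ^ (μ + 1) • W := by
    intro r hr w hw h
    obtain ⟨v, hv⟩ := hinv r hr
    have h1 := (P ^ (μ + 1) • W).smul_mem v h
    have h2 := hPV _ hv w hw
    have h3 : w = v • (r • w) - (v * r - 1) • w := by
      rw [sub_smul, mul_smul, one_smul]
      ring
    rw [h3]
    exact Submodule.sub_mem _ h1 h2
  have hudP : ∀ x, u x ∉ P := by
    intro x h
    apply hprime.ne_top
    rw [Ideal.eq_top_iff_one]
    have h1 := P.mul_mem_right (d x) h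
    have h2 : (1 : R) = u x * d x - (u x * d x - 1) := by ring
    rw [h2]
    exact P.sub_mem h1 (hu x)
  set q : Γ → ℂ := fun x => u x • β x with hq
  have hqm : ∀ x, q x ∈ P ^ μ • W := fun x => Submodule.smul_mem _ _ (hmin x)
  have hqs : q xs ∉ P ^ (μ + 1) • W := fun h => hxs (hunit _ (hudP xs) _ (hmin xs) h)
  -- differences of order `μ + 1` vanish
  have hvan : ∀ L : List Γ, μ < L.length → ∀ x, DD L q x ∈ P ^ (μ + 1) • W := by
    intro L hL x
    obtain ⟨A, hA, c, hc, h1⟩ := hQ ((PL L).map (fun k => x * k)).toFinset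
    have h2 : ∀ k ∈ PL L, A (x * k) - c • q (x * k) ∈ P ^ (μ + 1) • W := by
      intro k hk
      obtain ⟨o, ho, he⟩ := h1 (x * k) (by
        rw [List.mem_toFinset, List.mem_map]
        exact ⟨k, hk, rfl⟩)
      have h3 : o - c * u (x * k) ∈ P := by
        have h4 : o - c * u (x * k) = (o * d (x * k) - c) * u (x * k) -
            o * (u (x * k) * d (x * k) - 1) := by ring
        rw [h4]
        exact P.sub_mem (P.mul_mem_right _ ho) (P.mul_mem_left _ (hu _))
      have h5 := hPV _ h3 _ (hmin (x * k))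
      have h6 : A (x * k) - c • q (x * k) = (o - c * u (x * k)) • β (x * k) := by
        rw [he, hq, sub_smul, mul_smul]
      rw [h6]
      exact h5
    have h3 := DD_congr (V := P ^ (μ + 1) • W) (A := A) (B := q) (c := c) L x h2
    have h4 : DD L A x ∈ P ^ (μ + 1) • W := by
      have h5 := (DD_mem hR P hP1 hA L)
      have h6 := Comb.val hR h5 x
      exact (Submodule.smul_mono_left (Ideal.pow_le_pow_right hL)) h6
    have h5 : c • DD L q x ∈ P ^ (μ + 1) • W := by
      have h6 : c • DD L q x = DD L A x - (DD L A x - c • DD L q x) := by ring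
      rw [h6]
      exact Submodule.sub_mem _ h4 h3
    exact hunit c hc _ (DD_val_mem hqm L x) h5
  -- a maximal nonvanishing difference
  let Q : ℕ → Prop := fun k => ∃ L : List Γ, L.length = k ∧ ∃ x, DD L q x ∉ P ^ (μ + 1) • W
  have hQ0 : Q 0 := ⟨[], rfl, xs, hqs⟩
  have hQμ : ∀ k, Q k → k ≤ μ := by
    rintro k ⟨L, hk, x, h⟩
    by_contra hcon
    exact h (hvan L (by omega) x)
  obtain ⟨k, hk, hk1⟩ : ∃ k, Q k ∧ ¬ Q (k + 1) := by
    by_contra hcon
    push Not at hcon
    have hall : ∀ k, Q k := fun k => Nat.rec hQ0 (fun n ih => hcon n ih) k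
    have := hQμ (μ + 1) (hall (μ + 1))
    omega
  obtain ⟨L, hLk, x1, hx1⟩ := hk
  have hall : ∀ x, DD L q x ∉ P ^ (μ + 1) • W := by
    intro x hx
    apply hk1
    refine ⟨(x * x1⁻¹) :: L, by simp [hLk], x1, fun h => hx1 ?_⟩
    have h1 : DD ((x * x1⁻¹) :: L) q x1 = DD L q x1 - DD L q (x * x1⁻¹ * x1) := rfl
    rw [h1, inv_mul_cancel_right] at h
    have h2 : DD L q x1 = (DD L q x1 - DD L q x) + DD L q x := by ring
    rw [h2]
    exact Submodule.add_mem _ h hx
  have hkμ : k ≤ μ := hQμ k ⟨L, hLk, x1, hx1⟩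
  refine ⟨PL L, ?_, fun x => ?_⟩
  · rw [PL_length]
    exact Nat.pow_le_pow_right (by norm_num) (by omega)
  · obtain ⟨k, hk, h⟩ := DD_exists L x (hall x)
    refine ⟨k, hk, fun h1 => h ?_⟩
    rw [hq]
    simp only
    rw [h1, smul_zero]
    exact Submodule.zero_mem _

end Pool.Agent.Y18.LP
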