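import Pool.Agent.Y18.LP.Fld

/-!
The `L`-function of an elliptic curve over an abelian field.
-/

set_option autoImplicit false

open NumberField IsDedekindDomain H300.HW UpperHalfPlane MatrixGroups CongruenceSubgroup

namespace Pool.Agent.Y18.LP

open Pool.Agent.Y18.BSD Pool.Agent.Y18.NF
open Pool.Agent.W263.BSD (pointCount GoodPrime IsLSeries)
open Pool.Agent.Y702.L (pv)
open W165.CE (fac)

variable {N : ℕ} [NeZero N] {a b : ℤ} {f : CuspForm (Gamma0 N : Subgroup (GL (Fin 2) ℝ)) 2}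

open Classical in
/-- **The `L`-function over a subfield of a cyclotomic field.** -/
theorem core_cyc (hΔ : 4 * a ^ 3 + 27 * b ^ 2 ≠ 0) (hf : IsFormOf a b N f)
    (H0 : Subgroup Fam) (S0 : Finset ℕ) (hS0 : ∀ q ∈ S0, q.Prime ∧ ¬ q ∣ N)
    (hH : ∀ c ∈ H0, (∀ q, q ∉ S0 → c q = 1) → bt (bv f) c ≠ 0)
    (n : ℕ) [NeZero n] (hn : dd S0 ∣ n) (L : Type) [Field L] [NumberField L]
    [IsCyclotomicExtension {n} ℚ L] (F : IntermediateField ℚ L)
    (hF : F ≤ IntermediateField.adjoin ℚ {x : L | ∃ c ∈ H0, (∀ q, q ∉ S0 → c q = 1) ∧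
      ∃ z : L, z ^ dd (sp c) = 1 ∧ x = eta c z}) :
    ∃ G : ℂ → ℂ, Differentiable ℂ G ∧
      (∀ s : ℂ, 3 / 2 < s.re → HasProd (fac (K := F) a b N (co f) s) (G s)) ∧ G 1 ≠ 0 := by
  obtain ⟨w, hnf, hfr⟩ := hf.newf
  have h1 : ∀ χ : DirichletCharacter ℂ n, ∃ G : ℂ → ℂ, χ ∈ YY n L F → Differentiable ℂ G ∧
      (∀ s : ℂ, 3 / 2 < s.re → HasProd (fun p : Nat.Primes => ez N (co f) (pv n χ p) s p) (G s)) ∧
      G 1 ≠ 0 := by
    intro χ
    by_cases hχ : χ ∈ YY n L F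
    · obtain ⟨c, hc, hcS, hval⟩ := Yc_sub n L H0 S0 (fun q hq => (hS0 q hq).1) hn F hF hχ
      obtain ⟨hfin, hsub⟩ := sp_sub S0 hcS
      obtain ⟨G, hG1, hG2, hG3⟩ := tw_complete hnf hfr hf.cf hfin fun q hq => hS0 q (hsub hq)
      refine ⟨G, fun _ => ⟨hG1, fun s hs => ?_, hG3 (hH _ (H0.inv_mem hc) fun q hq => ?_)⟩⟩
      · have h2 := hG2 s hs
        refine (congrArg (fun g => HasProd g (G s)) (funext fun p : Nat.Primes => ?_)).mp h2
        rw [pv_cvl n S0 hcS (fun q hq => (hS0 q hq).1) hn hval]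
      · have h3 : (c⁻¹ : Fam) q = (c q)⁻¹ := rfl
        rw [h3, hcS q hq]
        ext x
        simp
    · exact ⟨0, fun h => absurd h hχ⟩
  choose G hG using h1
  refine ⟨fun s => ∏ χ : YY n L F, G χ s, ?_, fun s hs => ?_, ?_⟩
  · exact Differentiable.fun_finsetProd fun χ _ => (hG χ.1 χ.2).1
  · exact hasProd_F hΔ (form_H hf) n L F G s hs fun χ hχ => (hG χ hχ).2.1 s hs
  · exact Finset.prod_ne_zero_iff.2 fun χ _ => (hG χ.1 χ.2).2.2

/-- **The `L`-function over a number field contained in the field of the periods.** -/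
theorem core (hΔ : 4 * a ^ 3 + 27 * b ^ 2 ≠ 0) (hf : IsFormOf a b N f)
    (H0 : Subgroup Fam) (hfin : ∀ c ∈ H0, {q | c q ≠ 1}.Finite)
    (hH0 : ∀ c ∈ H0, ∀ q, c q ≠ 1 → q.Prime ∧ ¬ q ∣ N)
    (hH : ∀ c ∈ H0, bt (bv f) c ≠ 0)
    (F : IntermediateField ℚ ℂ) [NumberField F]
    (hF : F ≤ IntermediateField.adjoin ℚ {x : ℂ | ∃ c ∈ H0,
      x = eta c (Complex.exp (2 * Real.pi * Complex.I / (dd (sp c) : ℕ)))}) :
    ∃ G : ℂ → ℂ, Differentiable ℂ G ∧
      (∀ s : ℂ, 3 / 2 < s.re → HasProd (fac (K := F) a b N (co f) s) (G s)) ∧ G 1 ≠ 0 := by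
  classical
  obtain ⟨Z0, hZ1, hZ2⟩ := finite_gen F _ hF
  have h1 : ∀ z : ℂ, ∃ c : Fam, c ∈ H0 ∧ (z ∈ Z0 →
      z = eta c (Complex.exp (2 * Real.pi * Complex.I / (dd (sp c) : ℕ)))) := by
    intro z
    by_cases hz : z ∈ Z0
    · obtain ⟨c, hc, h⟩ := hZ1 hz
      exact ⟨c, hc, fun _ => h⟩
    · exact ⟨1, H0.one_mem, fun h => absurd h hz⟩
  choose c hcH hc using h1
  set S0 : Finset ℕ := Z0.biUnion fun z => sp (c z) with hS0
  have hS0X : ∀ q ∈ S0, q.Prime ∧ ¬ q ∣ N := by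
    intro q hq
    rw [hS0, Finset.mem_biUnion] at hq
    obtain ⟨z, hz, hqz⟩ := hq
    exact hH0 _ (hcH z) q ((mem_sp (hfin _ (hcH z)) q).1 hqz)
  set n : ℕ := dd S0 with hn
  have hn0 : NeZero n := ⟨dd_ne_zero fun q hq => (hS0X q hq).1⟩
  let L := CyclotomicField n ℚ
  have hcyc : IsCyclotomicExtension {n} ℚ L := CyclotomicField.isCyclotomicExtension n ℚ
  let φ : L →ₐ[ℚ] ℂ := IsAlgClosed.lift
  have hζ := IsCyclotomicExtension.zeta_spec n ℚ L
  have hζφ : IsPrimitiveRoot (φ (IsCyclotomicExtension.zeta n ℚ L)) n :=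
    hζ.map_of_injective φ.toRingHom.injective
  have hroot : ∀ y : ℂ, y ^ n = 1 → ∃ z : L, φ z = y ∧ z ^ n = 1 := by
    intro y hy
    obtain ⟨i, -, hi⟩ := hζφ.eq_pow_of_pow_eq_one hy
    refine ⟨IsCyclotomicExtension.zeta n ℚ L ^ i, ?_, ?_⟩
    · rw [map_pow, hi]
    · rw [← pow_mul, mul_comm, pow_mul, hζ.pow_eq_one, one_pow]
  set ZL : Set L := {x : L | ∃ c ∈ H0, (∀ q, q ∉ S0 → c q = 1) ∧
      ∃ z : L, z ^ dd (sp c) = 1 ∧ x = eta c z} with hZL
  have hadj : F ≤ (IntermediateField.adjoin ℚ ZL).map φ := by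
    refine hZ2.trans ?_
    rw [IntermediateField.adjoin_map]
    refine IntermediateField.adjoin.mono ℚ _ _ ?_
    intro z hz
    have hz' : z ∈ Z0 := hz
    have hsub : sp (c z) ⊆ S0 := Finset.subset_biUnion_of_mem (fun z => sp (c z)) hz'
    have hM0 : dd (sp (c z)) ≠ 0 := dd_ne_zero fun q hq => (hS0X q (hsub hq)).1
    set M := dd (sp (c z)) with hM
    set y : ℂ := Complex.exp (2 * Real.pi * Complex.I / (M : ℕ)) with hy
    have hyM : y ^ M = 1 := (Complex.isPrimitiveRoot_exp M hM0).pow_eq_one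
    obtain ⟨k, hk⟩ : M ∣ n := dd_dvd hsub
    have hyn : y ^ n = 1 := by rw [hk, pow_mul, hyM, one_pow]
    obtain ⟨x, hx1, hx2⟩ := hroot y hyn
    refine ⟨eta (c z) x, ⟨c z, hcH z, fun q hq => ?_, x, ?_, rfl⟩, ?_⟩
    · by_contra h
      exact hq (hsub ((mem_sp (hfin _ (hcH z)) q).2 h))
    · apply φ.toRingHom.injective
      show φ _ = φ _
      rw [map_pow, map_one, hx1]
      exact hyM
    · show φ (eta (c z) x) = z
      refine Eq.trans ?_ (hc z hz').symm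
      unfold eta
      rw [map_sum]
      refine Finset.sum_congr rfl fun u _ => ?_
      rw [map_pow, hx1]
  set F' : IntermediateField ℚ L := F.comap φ with hF'
  have hF'le : F' ≤ IntermediateField.adjoin ℚ ZL := by
    intro x hx
    have h2 : φ x ∈ F := hx
    obtain ⟨y, hy, hyx⟩ := hadj h2
    have h3 : y = x := φ.toRingHom.injective hyx
    rw [← h3]
    exact hy
  obtain ⟨G, hG1, hG2, hG3⟩ := core_cyc hΔ hf H0 S0 hS0X (fun c hc _ => hH c hc) n dvd_rfl L F'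
    hF'le
  let ψ : F' →+* F :=
    { toFun := fun x => ⟨φ x.1, x.2⟩
      map_one' := Subtype.ext (map_one φ)
      map_mul' := fun x y => Subtype.ext (map_mul φ x.1 y.1)
      map_zero' := Subtype.ext (map_zero φ)
      map_add' := fun x y => Subtype.ext (map_add φ x.1 y.1) }
  have hψ : Function.Bijective ψ := by
    refine ⟨ψ.injective, fun y => ?_⟩
    obtain ⟨x, -, hx⟩ := hadj y.2
    exact ⟨⟨x, by
      show φ x ∈ F
      have : φ x = y := hx
      rw [this]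
      exact y.2⟩, Subtype.ext hx⟩
  let e : F' ≃+* F := RingEquiv.ofBijective ψ hψ
  refine ⟨G, hG1, fun s hs => ?_, hG3⟩
  exact hasProd_plE (NumberField.RingOfIntegers.mapRingEquiv e) a b N (co f) s (G s) (hG2 s hs)

end Pool.Agent.Y18.LP
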