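import Pool.Agent.Y18.LP.Nf
import Pool.Agent.Y18.NF.Tr

/-!
The characters of the subfields of the field generated by Gaussian periods.
-/

set_option autoImplicit false

open NumberField H300.HW IsCyclotomicExtension.Rat
open UpperHalfPlane MatrixGroups CongruenceSubgroup

namespace Pool.Agent.Y18.LP

open Pool.Agent.Y18.BSD Pool.Agent.Y18.NF
open Pool.Agent.Y702.L (pv)
open W165.CE (fac)

lemma cvl_mul (c : Fam) (m n : ℕ) : cvl c (m * n) = cvl c m * cvl c n := by
  rw [← chi_nat, ← chi_nat, ← chi_nat, Nat.cast_mul, map_mul]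

lemma cvl_mod (c : Fam) (m : ℕ) : cvl c (m % dd (sp c)) = cvl c m := by
  rw [← chi_nat, ← chi_nat, ZMod.natCast_mod]

open Classical in
/-- the residues where the character is `1` -/
noncomputable def UU (c : Fam) : Finset ℕ := (Finset.range (dd (sp c))).filter fun u => cvl c u = 1

/-- the period -/
noncomputable def eta {L : Type*} [Field L] (c : Fam) (z : L) : L := ∑ u ∈ UU c, z ^ u

lemma eta_pow {L : Type*} [Field L] (c : Fam) (hp : dd (sp c) ≠ 0) {z : L}
    (hz : z ^ dd (sp c) = 1) (v : ℕ) (hv : cvl c v = 1) : ∑ u ∈ UU c, z ^ (v * u) = eta c z := by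
  classical
  set M := dd (sp c) with hM
  have hM0 : 0 < M := Nat.pos_of_ne_zero hp
  have hvc : v.Coprime M := by
    by_contra h
    have h1 : ¬ IsUnit (v : ZMod M) := fun h2 => h ((ZMod.isUnit_iff_coprime _ _).1 h2)
    have h2 := MulChar.map_nonunit (chi c) h1
    have h3 : chi c (v : ZMod M) = 1 := (chi_nat c v).trans hv
    rw [h3] at h2
    exact one_ne_zero h2
  have hmod : ∀ k : ℕ, z ^ (k % M) = z ^ k := by
    intro k
    conv_rhs => rw [← Nat.mod_add_div k M, pow_add, pow_mul, hz, one_pow, mul_one]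
  have hinj : Set.InjOn (fun u => v * u % M) (UU c : Set ℕ) := by
    intro u hu u' hu' h
    have h1 : u < M := Finset.mem_range.1 (Finset.mem_filter.1 hu).1
    have h2 : u' < M := Finset.mem_range.1 (Finset.mem_filter.1 hu').1
    have h3 : v * u ≡ v * u' [MOD M] := h
    have h4 := Nat.ModEq.cancel_left_of_coprime (by rw [Nat.Coprime] at hvc; rw [Nat.gcd_comm]; exact hvc) h3
    exact Nat.ModEq.eq_of_lt_of_lt h4 h1 h2
  have hsub : (UU c).image (fun u => v * u % M) ⊆ UU c := by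
    intro x hx
    obtain ⟨u, hu, rfl⟩ := Finset.mem_image.1 hx
    have h1 := (Finset.mem_filter.1 hu).2
    refine Finset.mem_filter.2 ⟨Finset.mem_range.2 (Nat.mod_lt _ hM0), ?_⟩
    rw [hM, cvl_mod, cvl_mul, hv, h1, one_mul]
  have himg : (UU c).image (fun u => v * u % M) = UU c :=
    Finset.eq_of_subset_of_card_le hsub (by rw [Finset.card_image_of_injOn hinj])
  unfold eta
  conv_rhs => rw [← himg]
  rw [Finset.sum_image hinj]
  exact Finset.sum_congr rfl fun u _ => (hmod _).symm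

section
variable (n : ℕ) [NeZero n] (L : Type) [Field L] [NumberField L] [IsCyclotomicExtension {n} ℚ L]

lemma XX_val {c : Fam} {S : Finset ℕ} (hS : ∀ q ∈ S, q ∣ n) (hc : sp c = S) (v : (ZMod n)ˣ) :
    (XX c S n v : ℂ) = cvl c (v : ZMod n).val := by
  have h1 : (v : ZMod n).val.Coprime n := ZMod.val_coe_unit_coprime v
  have h2 : v = ZMod.unitOfCoprime (v : ZMod n).val h1 := by
    apply Units.ext
    rw [ZMod.coe_unitOfCoprime, ZMod.natCast_zmod_val]
  subst hc
  conv_lhs => rw [h2, XX_nat c hS h1]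
  rfl

lemma eta_act {c : Fam} (hp : dd (sp c) ≠ 0) (hn : dd (sp c) ∣ n) {z : L}
    (hz : z ^ dd (sp c) = 1) (σ : Gal(L/ℚ))
    (hσ : (XX c (sp c) n (galEquivZMod n L σ) : ℂ) = 1) : σ (eta c z) = eta c z := by
  have hzn : z ^ n = 1 := by
    obtain ⟨k, hk⟩ := hn
    rw [hk, pow_mul, hz, one_pow]
  have h1 : σ z = z ^ ((galEquivZMod n L σ : (ZMod n)ˣ) : ZMod n).val :=
    galEquivZMod_apply_of_pow_eq n L σ hzn
  rw [XX_val n (fun q hq => (dvd_dd hq).trans hn) rfl] at hσ
  conv_lhs => rw [eta, map_sum]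
  rw [← eta_pow c hp hz _ hσ]
  refine Finset.sum_congr rfl fun u _ => ?_
  rw [map_pow, h1, ← pow_mul]

variable (H0 : Subgroup Fam) (S0 : Finset ℕ)

/-- the characters of the families in `H0` supported in `S0` -/
noncomputable def Yc : Subgroup (DirichletCharacter ℂ n) where
  carrier := {χ | ∃ c ∈ H0, (∀ q, q ∉ S0 → c q = 1) ∧ ∀ u : (ZMod n)ˣ,
    χ (u : ZMod n) = (XX c S0 n u : ℂ)}
  one_mem' := ⟨1, H0.one_mem, fun q _ => rfl, fun u => by
    rw [MulChar.one_apply u.isUnit, XX_apply]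
    simp [loc_one]⟩
  mul_mem' := by
    rintro χ χ' ⟨c, hc, h1, h2⟩ ⟨c', hc', h1', h2'⟩
    refine ⟨c * c', H0.mul_mem hc hc', fun q hq => ?_, fun u => ?_⟩
    · have h3 : (c * c' : Fam) q = c q * c' q := rfl
      rw [h3, h1 q hq, h1' q hq]
      ext x
      simp
    · rw [MulChar.mul_apply, h2, h2', XX_mul, MonoidHom.mul_apply, Units.val_mul]
  inv_mem' := by
    rintro χ ⟨c, hc, h1, h2⟩
    refine ⟨c⁻¹, H0.inv_mem hc, fun q hq => ?_, fun u => ?_⟩
    · have h3 : (c⁻¹ : Fam) q = (c q)⁻¹ := rfl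
      rw [h3, h1 q hq]
      ext x
      simp
    · rw [MulChar.inv_apply_eq_inv', h2, XX_inv, MonoidHom.inv_apply, Units.val_inv_eq_inv_val]

lemma sp_sub {c : Fam} (h : ∀ q, q ∉ S0 → c q = 1) : {q | c q ≠ 1}.Finite ∧ sp c ⊆ S0 := by
  have h1 : {q | c q ≠ 1} ⊆ (S0 : Set ℕ) := by
    intro q hq
    by_contra h2
    exact hq (h q h2)
  have h2 : {q | c q ≠ 1}.Finite := (Finset.finite_toSet S0).subset h1
  refine ⟨h2, fun q hq => ?_⟩
  exact h1 ((mem_sp h2 q).1 hq)

/-- **The characters of a field contained in the field of the periods.** -/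
theorem Yc_sub (hS0 : ∀ q ∈ S0, q.Prime) (hn : dd S0 ∣ n) (F : IntermediateField ℚ L)
    (hF : F ≤ IntermediateField.adjoin ℚ {x : L | ∃ c ∈ H0, (∀ q, q ∉ S0 → c q = 1) ∧
      ∃ z : L, z ^ dd (sp c) = 1 ∧ x = eta c z})
    {χ : DirichletCharacter ℂ n} (hχ : χ ∈ YY n L F) :
    ∃ c ∈ H0, (∀ q, q ∉ S0 → c q = 1) ∧ ∀ u : (ZMod n)ˣ, χ (u : ZMod n) = (XX c S0 n u : ℂ) := by
  classical
  set Y := Yc n H0 S0 with hY
  set G' : Subgroup Gal(L/ℚ) := (subgroupGalEquivSubgroupChar n L ℂ).symm (OrderDual.toDual Y)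
    with hG'
  set F' := IntermediateField.fixedField G' with hF'
  have hmem : ∀ σ : Gal(L/ℚ), σ ∈ G' ↔ ∀ ψ ∈ Y, ψ (galEquivZMod n L σ) = 1 := fun σ =>
    mem_subgroupGalEquivSubgroupChar_symm_iff n L ℂ σ Y
  have hYY : YY n L F' = Y := by
    unfold YY
    rw [hF', IntermediateField.fixingSubgroup_fixedField, hG', OrderIso.apply_symm_apply]
    rfl
  have hFF : F ≤ F' := by
    refine hF.trans (IntermediateField.adjoin_le_iff.2 ?_)
    rintro x ⟨c, hc, hcS, z, hz, rfl⟩
    show eta c z ∈ F'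
    rw [hF', IntermediateField.mem_fixedField_iff]
    intro σ hσ
    obtain ⟨hfin, hsub⟩ := sp_sub S0 hcS
    have hd : dd (sp c) ∣ n := (dd_dvd hsub).trans hn
    have hXX : XX c S0 n = XX c (sp c) n := by
      refine XX_subset c hsub (fun q _ hq => ?_) n
      by_contra h
      exact hq ((mem_sp hfin q).2 h)
    refine eta_act n L (dd_ne_zero fun q hq => hS0 q (hsub hq)) hd hz σ ?_
    -- the character of `c` belongs to `Y`
    have h2 : (MulChar.ofUnitHom (XX c S0 n) : DirichletCharacter ℂ n) ∈ Y :=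
      ⟨c, hc, hcS, fun u => MulChar.ofUnitHom_coe _ u⟩
    have h3 := (hmem σ).1 hσ _ h2
    rw [MulChar.ofUnitHom_coe, hXX] at h3
    exact h3
  have h1 : χ ∈ YY n L F' := by
    rw [mem_YY] at hχ ⊢
    exact fun σ hσ => hχ σ (IntermediateField.fixingSubgroup_antitone hFF hσ)
  rw [hYY] at h1
  exact h1

/-- the values of the primitive character -/
lemma pv_cvl {c : Fam} (hc : ∀ q, q ∉ S0 → c q = 1) (hS0 : ∀ q ∈ S0, q.Prime) (hn : dd S0 ∣ n)
    {χ : DirichletCharacter ℂ n} (hχ : ∀ u : (ZMod n)ˣ, χ (u : ZMod n) = (XX c S0 n u : ℂ))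
    (p : ℕ) : pv n χ p = cvl c p := by
  obtain ⟨hfin, hsub⟩ := sp_sub S0 hc
  have hd : dd (sp c) ∣ n := (dd_dvd hsub).trans hn
  have hXX : XX c S0 n = XX c (sp c) n := by
    refine XX_subset c hsub (fun q _ hq => ?_) n
    by_contra h
    exact hq ((mem_sp hfin q).2 h)
  have hprim : (chi c).conductor = dd (sp c) :=
    chi_primitive c hfin fun q hq => hS0 q (hsub hq)
  have h2 : χ = DirichletCharacter.changeLevel hd (chi c) := by
    apply MulChar.ext
    intro u
    rw [hχ u, DirichletCharacter.changeLevel_eq_cast_of_dvd, hXX]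
    have h3 : ((u : ZMod n).cast : ZMod (dd (sp c))) = (ZMod.unitsMap hd u : ZMod (dd (sp c))) :=
      (ZMod.unitsMap_val hd u).symm
    rw [h3, chi_unit, ← MonoidHom.comp_apply, XX_comp c hd (fun q hq => dvd_dd hq)]
  unfold pv
  rw [← chi_nat, h2]
  have h3 := DirichletCharacter.primitiveCharacter_changeLevel_apply hd (chi c) (p : ℤ)
  rw [Int.cast_natCast, Int.cast_natCast] at h3
  rw [h3]
  by_cases hp : IsCoprime (p : ℤ) (dd (sp c) : ℤ)
  · have h4 := (chi c).primitiveCharacter_apply_of_isCoprime hp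
    rw [Int.cast_natCast, Int.cast_natCast] at h4
    exact h4
  · have h4 := (DirichletCharacter.apply_eq_zero_iff (chi c) (p : ℤ)).2 hp
    rw [Int.cast_natCast] at h4
    rw [h4]
    have h5 := (DirichletCharacter.apply_eq_zero_iff (chi c).primitiveCharacter (p : ℤ)).2
      (by rwa [hprim])
    rw [Int.cast_natCast] at h5
    exact h5

end

end Pool.Agent.Y18.LP
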