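import Pool.Agent.Y18.BSD.Fib

/-!
The sums `∑ X(u) f(u/M)` for characters `X` with given local components.
-/

set_option autoImplicit false

namespace Pool.Agent.Y18.LP

open Finset Pool.Agent.Y18.BSD

/-- families of local characters -/
abbrev Fam : Type := (q : ℕ) → (ZMod q)ˣ →* ℂˣ

/-- the local character, on the units modulo `M` -/
noncomputable def loc (c : Fam) (M q : ℕ) : (ZMod M)ˣ →* ℂˣ :=
  if h : q ∣ M then (c q).comp (ZMod.unitsMap h) else 1

/-- the character with the local components `c q`, `q ∈ T` -/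
noncomputable def XX (c : Fam) (T : Finset ℕ) (M : ℕ) : (ZMod M)ˣ →* ℂˣ := ∏ q ∈ T, loc c M q

lemma XX_apply (c : Fam) (T : Finset ℕ) (M : ℕ) (u : (ZMod M)ˣ) :
    XX c T M u = ∏ q ∈ T, loc c M q u := by
  unfold XX
  rw [MonoidHom.finsetProd_apply]

lemma loc_one (M q : ℕ) : loc 1 M q = 1 := by
  unfold loc
  split_ifs with h
  · ext x; simp
  · rfl

lemma loc_mul (c c' : Fam) (M q : ℕ) : loc (c * c') M q = loc c M q * loc c' M q := by
  unfold loc
  split_ifs with h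
  · ext x; simp
  · ext x; simp

lemma loc_inv (c : Fam) (M q : ℕ) : loc c⁻¹ M q = (loc c M q)⁻¹ := by
  unfold loc
  split_ifs with h
  · ext x; simp
  · ext x; simp

lemma loc_eq_one {c : Fam} {q : ℕ} (h : c q = 1) (M : ℕ) : loc c M q = 1 := by
  unfold loc
  split_ifs with h1
  · rw [h]; ext x; simp
  · rfl

lemma loc_comp (c : Fam) {M N q : ℕ} (h : M ∣ N) (hq : q ∣ M) :
    (loc c M q).comp (ZMod.unitsMap h) = loc c N q := by
  unfold loc
  rw [dif_pos hq, dif_pos (hq.trans h), MonoidHom.comp_assoc, ZMod.unitsMap_comp]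

lemma XX_comp (c : Fam) {T : Finset ℕ} {M N : ℕ} (h : M ∣ N) (hT : ∀ q ∈ T, q ∣ M) :
    (XX c T M).comp (ZMod.unitsMap h) = XX c T N := by
  ext u
  rw [MonoidHom.comp_apply, XX_apply, XX_apply]
  congr 1
  refine Finset.prod_congr rfl fun q hq => ?_
  rw [← loc_comp c h (hT q hq), MonoidHom.comp_apply]

lemma XX_mul (c c' : Fam) (T : Finset ℕ) (M : ℕ) : XX (c * c') T M = XX c T M * XX c' T M := by
  unfold XX
  rw [← Finset.prod_mul_distrib]
  exact Finset.prod_congr rfl fun q _ => loc_mul c c' M q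

lemma XX_inv (c : Fam) (T : Finset ℕ) (M : ℕ) : XX c⁻¹ T M = (XX c T M)⁻¹ := by
  ext u
  rw [MonoidHom.inv_apply, XX_apply, XX_apply, ← Finset.prod_inv_distrib]
  congr 1
  refine Finset.prod_congr rfl fun q _ => ?_
  rw [loc_inv, MonoidHom.inv_apply]

lemma XX_subset (c : Fam) {S T : Finset ℕ} (hTS : T ⊆ S) (h : ∀ q ∈ S, q ∉ T → c q = 1) (M : ℕ) :
    XX c S M = XX c T M := by
  unfold XX
  refine (Finset.prod_subset hTS fun q hq hqT => ?_).symm
  exact loc_eq_one (h q hq hqT) M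

lemma loc_pow {c : Fam} {e : ℕ} (h : c ^ e = 1) (M q : ℕ) (u : (ZMod M)ˣ) :
    loc c M q u ^ e = 1 := by
  unfold loc
  split_ifs with h1
  · have h2 : (c q) ^ e = 1 := by
      have := congrFun h q
      simpa using this
    have h3 := DFunLike.congr_fun h2 (ZMod.unitsMap h1 u)
    simpa using h3
  · simp

lemma XX_pow {c : Fam} {e : ℕ} (h : c ^ e = 1) (T : Finset ℕ) (M : ℕ) (u : (ZMod M)ˣ) :
    XX c T M u ^ e = 1 := by
  rw [XX_apply, ← Finset.prod_pow]
  exact Finset.prod_eq_one fun q _ => loc_pow h M q u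

/-- the sum over the units -/
noncomputable def ps (f : ℚ → ℂ) {M : ℕ} [NeZero M] (X : (ZMod M)ˣ →* ℂˣ) : ℂ :=
  ∑ u : (ZMod M)ˣ, (X u : ℂ) * FF f M u

theorem ps_step (f : ℚ → ℂ) (hf : ∀ r, f (r + 1) = f r) (a : ℂ) (l M N : ℕ) [NeZero M] [NeZero N]
    (hl : l.Prime) (hco : Nat.Coprime l M) (hN : N = l * M)
    (hecke : ∀ r : ℚ, a * f r = f (l * r) + ∑ u ∈ range l, f ((r + u) / l))
    (h : M ∣ N) (X : (ZMod M)ˣ →* ℂˣ) :
    ps f (X.comp (ZMod.unitsMap h)) =
      (a - ((X (ZMod.unitOfCoprime l hco))⁻¹ : ℂˣ) - (X (ZMod.unitOfCoprime l hco) : ℂ)) *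
        ps f X := by
  classical
  have hM : 0 < M := Nat.pos_of_ne_zero (NeZero.ne M)
  set c : (ZMod M)ˣ := ZMod.unitOfCoprime l hco with hcdef
  have hc : (c : ZMod M) = (l : ℕ) := ZMod.coe_unitOfCoprime _ _
  have h1 : ps f (X.comp (ZMod.unitsMap h)) = ∑ b : (ZMod M)ˣ,
      ∑ u ∈ (univ : Finset (ZMod N)ˣ).filter (fun u => ZMod.unitsMap h u = b),
        ((X.comp (ZMod.unitsMap h)) u : ℂ) * FF f N u := by
    unfold ps
    exact (Finset.sum_fiberwise _ _ _).symm
  have h2 : ∀ b : (ZMod M)ˣ, ∑ u ∈ (univ : Finset (ZMod N)ˣ).filter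
      (fun u => ZMod.unitsMap h u = b), ((X.comp (ZMod.unitsMap h)) u : ℂ) * FF f N u =
      (X b : ℂ) * (a * FF f M b - FF f M (c * b) - FF f M (c⁻¹ * b)) := by
    intro b
    rw [← core f hf a l M N hl hM hco hN hecke h c b hc, Finset.mul_sum]
    refine Finset.sum_congr rfl fun u hu => ?_
    have hu' := (Finset.mem_filter.1 hu).2
    rw [MonoidHom.comp_apply, hu']
  rw [h1, Finset.sum_congr rfl fun b _ => h2 b]
  have h5 : ∑ b : (ZMod M)ˣ, (X b : ℂ) * FF f M (c * b) = ((X c)⁻¹ : ℂˣ) * ps f X := by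
    unfold ps
    rw [← Equiv.sum_comp (Equiv.mulLeft c) (fun b => (X b : ℂ) * FF f M b), Finset.mul_sum]
    refine Finset.sum_congr rfl fun b _ => ?_
    simp only [Equiv.coe_mulLeft, map_mul, Units.val_mul]
    rw [← mul_assoc, ← mul_assoc, Units.inv_mul, one_mul]
  have h6 : ∑ b : (ZMod M)ˣ, (X b : ℂ) * FF f M (c⁻¹ * b) = (X c : ℂ) * ps f X := by
    unfold ps
    rw [← Equiv.sum_comp (Equiv.mulLeft c⁻¹) (fun b => (X b : ℂ) * FF f M b), Finset.mul_sum]
    refine Finset.sum_congr rfl fun b _ => ?_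
    simp only [Equiv.coe_mulLeft, map_mul, map_inv, Units.val_mul]
    rw [← mul_assoc, ← mul_assoc, Units.mul_inv, one_mul]
  have h7 : ∑ b : (ZMod M)ˣ, (X b : ℂ) * (a * FF f M b - FF f M (c * b) - FF f M (c⁻¹ * b)) =
      a * ps f X - (∑ b : (ZMod M)ˣ, (X b : ℂ) * FF f M (c * b)) -
        ∑ b : (ZMod M)ˣ, (X b : ℂ) * FF f M (c⁻¹ * b) := by
    unfold ps
    rw [Finset.mul_sum, ← Finset.sum_sub_distrib, ← Finset.sum_sub_distrib]
    refine Finset.sum_congr rfl fun b _ => by ring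
  rw [h7, h5, h6]
  ring

/-- the sum over the units, for a family of local characters -/
noncomputable def psc (f : ℚ → ℂ) (c : Fam) (T : Finset ℕ) (M : ℕ) [NeZero M] : ℂ :=
  ps f (XX c T M)

lemma dvd_dd {T : Finset ℕ} {q : ℕ} (hq : q ∈ T) : q ∣ dd T := Finset.dvd_prod_of_mem _ hq

/-- the sum for the modulus `∏ S` in terms of the sum for the modulus `∏ T` -/
theorem ps_prod (f : ℚ → ℂ) (hf : ∀ r, f (r + 1) = f r) (a : ℕ → ℂ) (c : Fam) {e : ℕ}
    (he : c ^ e = 1) (T : Finset ℕ) (R : Finset ℕ) : Disjoint R T → (∀ q ∈ R ∪ T, q.Prime) →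
    (∀ l ∈ R, ∀ r : ℚ, a l * f r = f (l * r) + ∑ u ∈ range l, f ((r + u) / l)) →
    ∀ (M M' : ℕ) [NeZero M] [NeZero M'], M = dd (R ∪ T) → M' = dd T →
    ∃ x : ℕ → ℂˣ, (∀ q, x q ^ e = 1) ∧
      psc f c T M = (∏ q ∈ R, (a q - ((x q)⁻¹ : ℂˣ) - (x q : ℂ))) * psc f c T M' := by
  classical
  induction R using Finset.induction_on with
  | empty =>
    intro _ _ _ M M' _ _ hM hM'
    rw [Finset.empty_union, ← hM'] at hM
    subst hM
    exact ⟨1, fun q => by simp, by simp⟩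
  | insert q R hq ih =>
    intro hd hp hh M M' _ _ hM hM'
    have hd' : Disjoint R T := hd.mono_left (Finset.subset_insert q R)
    have hqT : q ∉ T := fun h => Finset.disjoint_left.1 hd (Finset.mem_insert_self q R) h
    have hqRT : q ∉ R ∪ T := by simp [hq, hqT]
    have hp' : ∀ x ∈ R ∪ T, x.Prime := fun x hx => hp x (by
      rw [Finset.insert_union]; exact Finset.mem_insert_of_mem hx)
    have hqp : q.Prime := hp q (by simp)
    have hne : NeZero (dd (R ∪ T)) := ⟨dd_ne_zero hp'⟩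
    rw [Finset.insert_union, dd_insert hqRT] at hM
    have hdv : dd (R ∪ T) ∣ M := ⟨q, by rw [hM, mul_comm]⟩
    have hco := dd_coprime hqp hp' hqRT
    have h1 := ps_step f hf (a q) q (dd (R ∪ T)) M hqp hco hM
      (hh q (Finset.mem_insert_self q R)) hdv (XX c T (dd (R ∪ T)))
    rw [XX_comp c hdv (fun p hp => dvd_dd (Finset.mem_union_right R hp))] at h1
    obtain ⟨x, hx, h2⟩ := ih hd' hp' (fun l hl => hh l (Finset.mem_insert_of_mem hl))
      (dd (R ∪ T)) M' rfl hM'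
    refine ⟨Function.update x q (XX c T (dd (R ∪ T)) (ZMod.unitOfCoprime q hco)), ?_, ?_⟩
    · intro p
      by_cases hpq : p = q
      · subst hpq
        rw [Function.update_self]
        exact XX_pow he _ _ _
      · rw [Function.update_of_ne hpq]
        exact hx p
    · rw [Finset.prod_insert hq, Function.update_self]
      have h3 : ∏ p ∈ R, (a p - ((Function.update x q
            (XX c T (dd (R ∪ T)) (ZMod.unitOfCoprime q hco)) p)⁻¹ : ℂˣ) -
            (Function.update x q (XX c T (dd (R ∪ T)) (ZMod.unitOfCoprime q hco)) p : ℂ)) =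
          ∏ p ∈ R, (a p - ((x p)⁻¹ : ℂˣ) - (x p : ℂ)) := by
        refine Finset.prod_congr rfl fun p hp => ?_
        rw [Function.update_of_ne (show p ≠ q from fun h => hq (h ▸ hp))]
      rw [h3, mul_assoc, ← h2]
      exact h1

end Pool.Agent.Y18.LP
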