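import Mathlib

/-!
The ring of the multipliers of a finitely generated group of complex numbers, and the intersection
of the powers of an ideal.
-/

set_option autoImplicit false

namespace Pool.Agent.Y18.LP

/-- the ring of the multipliers of `M` -/
def Mult (M : Submodule ℤ ℂ) : Subring ℂ where
  carrier := {r | ∀ w ∈ M, r * w ∈ M}
  mul_mem' := fun {a b} ha hb w hw => by rw [mul_assoc]; exact ha _ (hb _ hw)
  one_mem' := fun w hw => by rwa [one_mul]
  add_mem' := fun {a b} ha hb w hw => by rw [add_mul]; exact M.add_mem (ha _ hw) (hb _ hw)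
  zero_mem' := fun w _ => by rw [zero_mul]; exact M.zero_mem
  neg_mem' := fun {a} ha w hw => by rw [neg_mul]; exact M.neg_mem (ha _ hw)

lemma mem_Mult {M : Submodule ℤ ℂ} {r : ℂ} : r ∈ Mult M ↔ ∀ w ∈ M, r * w ∈ M := Iff.rfl

lemma finite_Mult {M : Submodule ℤ ℂ} [Module.Finite ℤ M] {w : ℂ} (hw : w ∈ M) (h0 : w ≠ 0) :
    Module.Finite ℤ (Mult M) := by
  let φ : Mult M →ₗ[ℤ] M :=
    { toFun := fun r => ⟨r * w, r.2 w hw⟩
      map_add' := fun a b => by
        apply Subtype.ext
        show ((a : ℂ) + b) * w = a * w + b * w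
        ring
      map_smul' := fun n a => by
        apply Subtype.ext
        show (Mult M).subtype (n • a) * w = n • ((a : ℂ) * w)
        rw [map_zsmul, smul_mul_assoc]
        rfl }
  have hφ : Function.Injective φ := by
    intro a b h
    have h1 : (a : ℂ) * w = b * w := congrArg Subtype.val h
    exact Subtype.ext (mul_right_cancel₀ h0 h1)
  exact Module.Finite.of_injective φ hφ

/-- stability of products -/
lemma mul_Mult {M M' : Submodule ℤ ℂ} {r : ℂ} (h : r ∈ Mult M) : r ∈ Mult (M * M') := by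
  intro w hw
  induction hw using Submodule.mul_induction_on' with
  | mem_mul_mem m hm n hn =>
    rw [← mul_assoc]
    exact Submodule.mul_mem_mul (h m hm) hn
  | add x _ y _ h1 h2 => rw [mul_add]; exact Submodule.add_mem _ h1 h2

lemma mul_Mult' {M M' : Submodule ℤ ℂ} {r : ℂ} (h : r ∈ Mult M') : r ∈ Mult (M * M') := by
  rw [mul_comm]
  exact mul_Mult h

lemma prod_Mult {ι : Type} (s : Finset ι) (M : ι → Submodule ℤ ℂ) {r : ℂ} {i : ι} (hi : i ∈ s)
    (h : r ∈ Mult (M i)) : r ∈ Mult (∏ i ∈ s, M i) := by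
  classical
  rw [← Finset.mul_prod_erase s M hi]
  exact mul_Mult h

lemma prod_mem' {ι : Type} (s : Finset ι) {A : Type} [CommSemiring A] [Algebra A ℂ]
    (M : ι → Submodule A ℂ) (x : ι → ℂ)
    (h : ∀ i ∈ s, x i ∈ M i) : ∏ i ∈ s, x i ∈ ∏ i ∈ s, M i := by
  classical
  induction s using Finset.induction_on with
  | empty => simp only [Finset.prod_empty]; exact Submodule.one_le.1 le_rfl
  | insert i s hi ih =>
    rw [Finset.prod_insert hi, Finset.prod_insert hi]
    exact Submodule.mul_mem_mul (h i (Finset.mem_insert_self i s))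
      (ih fun j hj => h j (Finset.mem_insert_of_mem hj))

lemma fg_prod {ι : Type} (s : Finset ι) {A : Type} [CommSemiring A] [Algebra A ℂ]
    (M : ι → Submodule A ℂ) (h : ∀ i ∈ s, (M i).FG) : (∏ i ∈ s, M i).FG := by
  classical
  induction s using Finset.induction_on with
  | empty =>
    rw [Finset.prod_empty, Submodule.one_eq_span]
    exact Submodule.fg_span_singleton _
  | insert i s hi ih =>
    rw [Finset.prod_insert hi]
    exact (h i (Finset.mem_insert_self i s)).mul
      (ih fun j hj => h j (Finset.mem_insert_of_mem hj))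

/-- the group generated by the roots of unity of order `e` -/
def Zr (e : ℕ) : Submodule ℤ ℂ := Submodule.span ℤ {z | z ^ e = 1}

lemma Zr_fg {e : ℕ} (he : 0 < e) : (Zr e).FG := by
  have hfin : {z : ℂ | z ^ e = 1}.Finite := by
    have : {z : ℂ | z ^ e = 1} ⊆ ((Polynomial.nthRoots e (1 : ℂ)).toFinset : Set ℂ) := by
      intro z hz
      rw [Finset.mem_coe, Multiset.mem_toFinset, Polynomial.mem_nthRoots he]
      exact hz
    exact (Finset.finite_toSet _).subset this
  exact Submodule.fg_span hfin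

lemma Zr_one (e : ℕ) : (1 : ℂ) ∈ Zr e := Submodule.subset_span (one_pow e)

lemma Zr_Mult {e : ℕ} {z : ℂ} (hz : z ^ e = 1) : z ∈ Mult (Zr e) := by
  intro w hw
  induction hw using Submodule.span_induction with
  | mem x hx =>
    refine Submodule.subset_span ?_
    show (z * x) ^ e = 1
    rw [mul_pow, hz, one_mul]
    exact hx
  | zero => rw [mul_zero]; exact Submodule.zero_mem _
  | add x y _ _ h1 h2 => rw [mul_add]; exact Submodule.add_mem _ h1 h2
  | smul c x _ h => rw [mul_smul_comm]; exact Submodule.smul_mem _ _ h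

/-- **Krull's intersection theorem.** -/
lemma krull {R : Subring ℂ} [IsNoetherianRing R] {P : Ideal R} (hP : P ≠ ⊤) {W : Submodule R ℂ}
    (hW : W.FG) {x : ℂ} (hx : x ∈ W) (h0 : x ≠ 0) : ∃ V : ℕ, x ∉ P ^ (V + 1) • W := by
  by_contra hcon
  push Not at hcon
  have : Module.Finite R W := Module.Finite.iff_fg.2 hW
  have h1 := P.iInf_pow_smul_eq_bot_of_isTorsionFree (M := W) hP
  have h2 : (⟨x, hx⟩ : W) ∈ (⨅ i : ℕ, P ^ i • (⊤ : Submodule R W)) := by
    rw [Submodule.mem_iInf]
    intro i
    have h3 : x ∈ P ^ i • W := (Submodule.smul_mono_left (Ideal.pow_le_pow_right (Nat.le_succ i)))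
      (hcon i)
    have h4 : (P ^ i • (⊤ : Submodule R W)).map W.subtype = P ^ i • W := by
      rw [Submodule.map_smul'', Submodule.map_top, Submodule.range_subtype]
    rw [← h4] at h3
    obtain ⟨y, hy, hyx⟩ := h3
    have h5 : y = ⟨x, hx⟩ := Subtype.ext hyx
    rwa [h5] at hy
  rw [h1, Submodule.mem_bot] at h2
  exact h0 (congrArg Subtype.val h2)

section lam

variable (lam : Ideal (integralClosure ℤ ℂ)) {R : Subring ℂ}

/-- the inclusion into the ring of all algebraic integers -/
def incl (hR : Module.Finite ℤ R) : R →+* integralClosure ℤ ℂ where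
  toFun r := ⟨r, by
    have h1 : IsIntegral ℤ r := IsIntegral.of_finite ℤ r
    exact h1.map (R.subtype.toIntAlgHom)⟩
  map_one' := rfl
  map_mul' _ _ := rfl
  map_zero' := rfl
  map_add' _ _ := rfl

lemma incl_coe (hR : Module.Finite ℤ R) (r : R) : ((incl hR r : integralClosure ℤ ℂ) : ℂ) = r := rfl

/-- the contraction of `lam` is a maximal ideal -/
lemma comap_maximal (hR : Module.Finite ℤ R) (hlam : lam.IsPrime) {l : ℕ} (hl : l.Prime)
    (hmem : (l : integralClosure ℤ ℂ) ∈ lam) : (lam.comap (incl hR)).IsMaximal := by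
  have h1 : (lam.comap (incl hR)).IsPrime := hlam.comap _
  have hint : Algebra.IsIntegral ℤ R := Algebra.IsIntegral.of_finite ℤ R
  refine Ideal.isMaximal_of_isIntegral_of_isMaximal_comap (R := ℤ) _ ?_
  have h2 : ((lam.comap (incl hR)).comap (algebraMap ℤ R)).IsPrime := h1.comap _
  refine h2.isMaximal ?_
  intro h3
  have h4 : (l : ℤ) ∈ (lam.comap (incl hR)).comap (algebraMap ℤ R) := by
    rw [Ideal.mem_comap, Ideal.mem_comap]
    have : incl hR (algebraMap ℤ R (l : ℤ)) = (l : integralClosure ℤ ℂ) := by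
      simp
    rw [this]
    exact hmem
  rw [h3, Ideal.mem_bot] at h4
  exact hl.ne_zero (by exact_mod_cast h4)

/-- `1 - z` is in `lam` for the roots of unity of order a power of `l` -/
lemma one_sub_mem (hlam : lam.IsPrime) {l n : ℕ} (hl : l.Prime)
    (hmem : (l : integralClosure ℤ ℂ) ∈ lam) (z : integralClosure ℤ ℂ) (hz : z ^ (l ^ n) = 1) :
    1 - z ∈ lam := by
  have hchar : CharP (integralClosure ℤ ℂ ⧸ lam) l := by
    have h1 : ((l : ℕ) : integralClosure ℤ ℂ ⧸ lam) = 0 := by
      have : ((l : ℕ) : integralClosure ℤ ℂ ⧸ lam) = Ideal.Quotient.mk lam (l : integralClosure ℤ ℂ) := by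
        simp
      rw [this]
      exact Ideal.Quotient.eq_zero_iff_mem.2 hmem
    have : Nontrivial (integralClosure ℤ ℂ ⧸ lam) := Ideal.Quotient.nontrivial_iff.2 hlam.ne_top
    exact ringChar.of_eq (CharP.ringChar_of_prime_eq_zero hl h1)
  have : Fact l.Prime := ⟨hl⟩
  rw [← Ideal.Quotient.eq_zero_iff_mem, map_sub, map_one]
  set y := Ideal.Quotient.mk lam z with hy
  have h2 : y ^ (l ^ n) = 1 := by rw [hy, ← map_pow, hz, map_one]
  have h3 : (1 - y) ^ (l ^ n) = 0 := by
    rw [sub_pow_char_pow, one_pow, h2, sub_self]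
  have hdom : IsDomain (integralClosure ℤ ℂ ⧸ lam) := (Ideal.Quotient.isDomain_iff_prime lam).2 hlam
  exact (pow_eq_zero_iff (pow_ne_zero n hl.ne_zero)).1 h3

end lam

end Pool.Agent.Y18.LP
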