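import Pool.Agent.Y18.LP.Comb
import Pool.Agent.Y18.LP.Psi
import Pool.Agent.Y18.LP.Rng

/-!
The sums of modular symbols agree on finite sets, up to units, with combinations of characters.
-/

set_option autoImplicit false

namespace Pool.Agent.Y18.LP

open Finset Pool.Agent.Y18.BSD

/-- a system of modular symbols -/
structure MS (N : ℕ) (f : ℚ → ℂ) (a : ℕ → ℂ) : Prop where
  per : ∀ r, f (r + 1) = f r
  hecke : ∀ l : ℕ, l.Prime → ¬ l ∣ N → ∀ r : ℚ,
    a l * f r = f (l * r) + ∑ u ∈ range l, f ((r + u) / l)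
  fin : (Submodule.span ℤ (Set.range f)).FG

open Classical in
/-- the support -/
noncomputable def sp (c : Fam) : Finset ℕ :=
  if h : {q | c q ≠ 1}.Finite then h.toFinset else ∅

lemma mem_sp {c : Fam} (h : {q | c q ≠ 1}.Finite) (q : ℕ) : q ∈ sp c ↔ c q ≠ 1 := by
  unfold sp
  rw [dif_pos h, Set.Finite.mem_toFinset]
  rfl

open Classical in
/-- the value of the sum -/
noncomputable def bt (f : ℚ → ℂ) (c : Fam) : ℂ :=
  if h : dd (sp c) ≠ 0 then
    (haveI : NeZero (dd (sp c)) := ⟨h⟩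
     psc f c (sp c) (dd (sp c))) else 0

lemma bt_eq (f : ℚ → ℂ) (c : Fam) (M : ℕ) [hM : NeZero M] (h : M = dd (sp c)) :
    bt f c = psc f c (sp c) M := by
  subst h
  unfold bt
  rw [dif_pos hM.out]

/-- conditions on a group of families -/
structure Ok (H : Subgroup Fam) (e : ℕ) (A : Set ℕ) : Prop where
  pow : ∀ c ∈ H, c ^ e = 1
  fin : ∀ c ∈ H, {q | c q ≠ 1}.Finite
  adm : ∀ c ∈ H, ∀ q, c q ≠ 1 → q ∈ A

lemma psc_mem {R : Subring ℂ} {e : ℕ} (hR : ∀ z : ℂ, z ^ e = 1 → z ∈ R) (f : ℚ → ℂ) {c : Fam}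
    (hc : c ^ e = 1) (T : Finset ℕ) (M : ℕ) [NeZero M] :
    psc f c T M ∈ Submodule.span R (Set.range f) := by
  unfold psc ps
  refine Submodule.sum_mem _ fun u _ => ?_
  have h1 : ((XX c T M u : ℂˣ) : ℂ) ^ e = 1 := by
    have := congrArg Units.val (XX_pow hc T M u)
    simpa using this
  have h2 := (Submodule.span R (Set.range f)).smul_mem (⟨_, hR _ h1⟩ : R)
    (Submodule.subset_span ⟨_, rfl⟩ : f (((u : ZMod M).val : ℚ) / M) ∈
      Submodule.span R (Set.range f))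
  exact h2

/-- the sum for a fixed modulus is a combination of characters -/
lemma psc_comb {R : Subring ℂ} {e : ℕ} (f : ℚ → ℂ) {H : Subgroup Fam} (hH : ∀ c ∈ H, c ^ e = 1)
    (S : Finset ℕ) (M : ℕ) [NeZero M] :
    (fun c : H => psc f (c : Fam) S M) ∈ Comb H e (Submodule.span R (Set.range f)) := by
  classical
  have h1 : (fun c : H => psc f (c : Fam) S M) =
      ∑ u : (ZMod M)ˣ, fun c : H => FF f M u * ((XX (c : Fam) S M u : ℂˣ) : ℂ) := by
    funext c
    rw [Finset.sum_apply]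
    unfold psc ps
    exact Finset.sum_congr rfl fun u _ => mul_comm _ _
  rw [h1]
  refine AddSubgroup.sum_mem _ fun u _ => ?_
  let E : H →* ℂ :=
    { toFun := fun c => ((XX (c : Fam) S M u : ℂˣ) : ℂ)
      map_one' := by
        rw [XX_apply]
        simp [loc_one]
      map_mul' := fun c c' => by
        rw [Subgroup.coe_mul, XX_mul]
        simp }
  refine Comb.gen (Γ := H) (w := FF f M u) (show FF f M u ∈ Submodule.span R (Set.range f) from
    Submodule.subset_span (Set.mem_range_self _)) E fun c => ?_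
  have h2 := congrArg Units.val (XX_pow (hH c c.2) S M u)
  rw [Units.val_pow_eq_pow_val, Units.val_one] at h2
  exact h2

theorem good {N : ℕ} {f : ℚ → ℂ} {a : ℕ → ℂ} (hms : MS N f a) {R : Subring ℂ} {e : ℕ}
    (hR : ∀ z : ℂ, z ^ e = 1 → z ∈ R) (al : ℕ → R) {P : Ideal R} (hP : P.IsPrime)
    (hP1 : ∀ z : R, (z : ℂ) ^ e = 1 → 1 - z ∈ P) {H : Subgroup Fam} {A : Set ℕ} (hH : Ok H e A)
    (hA : ∀ q ∈ A, q.Prime ∧ ¬ q ∣ N ∧ (al q : ℂ) = a q ∧ al q - 2 ∉ P) :
    Good e P (Submodule.span R (Set.range f)) (fun c : H => bt f c) := by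
  classical
  have hsp : ∀ c : H, ∀ q ∈ sp (c : Fam), q ∈ A := fun c q hq =>
    hH.adm c c.2 q ((mem_sp (hH.fin c c.2) q).1 hq)
  have hnz : ∀ S : Finset ℕ, (∀ q ∈ S, q ∈ A) → dd S ≠ 0 := fun S hS =>
    dd_ne_zero fun q hq => (hA q (hS q hq)).1
  refine ⟨fun c => ?_, ?_⟩
  · have : NeZero (dd (sp (c : Fam))) := ⟨hnz _ (hsp c)⟩
    rw [bt_eq f c _ rfl]
    exact psc_mem hR f (hH.pow c c.2) _ _
  · have hprod : ∀ S : Finset ℕ, (∀ q ∈ S, q ∈ A) → ∏ q ∈ S, (al q - 2) ∉ P := by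
      intro S hS h
      obtain ⟨q, hq, h1⟩ := (hP.prod_mem_iff).1 h
      exact (hA q (hS q hq)).2.2.2 h1
    refine ⟨fun c => ∏ q ∈ sp (c : Fam), (al q - 2), fun c => hprod _ (hsp c), fun Q => ?_⟩
    set S : Finset ℕ := Q.biUnion (fun c => sp (c : Fam)) with hS
    have hSA : ∀ q ∈ S, q ∈ A := by
      intro q hq
      obtain ⟨c, _, h1⟩ := Finset.mem_biUnion.1 hq
      exact hsp c q h1
    have : NeZero (dd S) := ⟨hnz S hSA⟩
    refine ⟨_, psc_comb (R := R) f hH.pow S (dd S), ∏ q ∈ S, (al q - 2), hprod S hSA, ?_⟩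
    intro c hc
    have hsub : sp (c : Fam) ⊆ S := Finset.subset_biUnion_of_mem (fun c : H => sp (c : Fam)) hc
    have hne : NeZero (dd (sp (c : Fam))) := ⟨hnz _ (hsp c)⟩
    have hXX : XX (c : Fam) S (dd S) = XX (c : Fam) (sp (c : Fam)) (dd S) := by
      refine XX_subset _ hsub (fun q _ hq => ?_) _
      by_contra h1
      exact hq ((mem_sp (hH.fin c c.2) q).2 h1)
    obtain ⟨x, hx, h1⟩ := ps_prod f hms.per a (c : Fam) (hH.pow c c.2) (sp (c : Fam))
      (S \ sp (c : Fam)) Finset.sdiff_disjoint (fun q hq => by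
        rw [Finset.sdiff_union_of_subset hsub] at hq
        exact (hA q (hSA q hq)).1) (fun l hl r => hms.hecke l (hA l (hSA l (Finset.sdiff_subset hl))).1
        (hA l (hSA l (Finset.sdiff_subset hl))).2.1 r) (dd S) (dd (sp (c : Fam)))
      (by rw [Finset.sdiff_union_of_subset hsub]) rfl
    have hx1 : ∀ q, ((x q : ℂˣ) : ℂ) ^ e = 1 := fun q => by
      have := congrArg Units.val (hx q)
      simpa using this
    have hx2 : ∀ q, (((x q)⁻¹ : ℂˣ) : ℂ) ^ e = 1 := fun q => by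
      have := congrArg Units.val (congrArg (fun z => z⁻¹) (hx q))
      simpa using this
    refine ⟨∏ q ∈ S \ sp (c : Fam), (al q - ⟨_, hR _ (hx2 q)⟩ - ⟨_, hR _ (hx1 q)⟩), ?_, ?_⟩
    · rw [← Ideal.Quotient.eq_zero_iff_mem, map_sub, map_mul, sub_eq_zero, map_prod, map_prod,
        map_prod]
      have h2 : ∏ q ∈ S \ sp (c : Fam), Ideal.Quotient.mk P (al q - ⟨_, hR _ (hx2 q)⟩ -
            ⟨_, hR _ (hx1 q)⟩) = ∏ q ∈ S \ sp (c : Fam), Ideal.Quotient.mk P (al q - 2) := by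
        refine Finset.prod_congr rfl fun q _ => ?_
        rw [← sub_eq_zero, ← map_sub, Ideal.Quotient.eq_zero_iff_mem]
        have h3 : al q - ⟨_, hR _ (hx2 q)⟩ - ⟨_, hR _ (hx1 q)⟩ - (al q - 2) =
            (1 - ⟨_, hR _ (hx2 q)⟩) + (1 - ⟨_, hR _ (hx1 q)⟩ : R) := by ring
        rw [h3]
        exact P.add_mem (hP1 _ (hx2 q)) (hP1 _ (hx1 q))
      rw [h2, Finset.prod_sdiff hsub]
    · show psc f (c : Fam) S (dd S) = _
      have h4 : psc f (c : Fam) S (dd S) = psc f (c : Fam) (sp (c : Fam)) (dd S) := by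
        unfold psc
        rw [hXX]
      rw [h4, h1, bt_eq f c _ rfl, Subring.smul_def, smul_eq_mul]
      congr 1
      rw [← Subring.subtype_apply, map_prod]
      refine Finset.prod_congr rfl fun q hq => ?_
      rw [map_sub, map_sub]
      simp only [Subring.subtype_apply]
      rw [(hA q (hSA q (Finset.sdiff_subset hq))).2.2.1]

end Pool.Agent.Y18.LP
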