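import Pool.Agent.Y18.LP.Comb

/-!
Tuples, abstractly.
-/

set_option autoImplicit false

namespace Pool.Agent.Y18.LP

open Finset

section
variable {Γ Γ' : Type} [CommGroup Γ] [CommGroup Γ'] {R : Subring ℂ} {e : ℕ} {W : Submodule R ℂ}

lemma Comb.hom {A : Γ → ℂ} (hA : A ∈ Comb Γ e W) (φ : Γ' →* Γ) :
    (fun x => A (φ x)) ∈ Comb Γ' e W := by
  induction hA using AddSubgroup.closure_induction with
  | mem x hx =>
    obtain ⟨w, hw, E, hE, rfl⟩ := hx
    exact Comb.gen (Γ := Γ') (e := e) hw (E.comp φ) (fun g => hE _)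
  | zero => exact AddSubgroup.zero_mem _
  | add x y _ _ h1 h2 => exact AddSubgroup.add_mem _ h1 h2
  | neg x _ h => exact AddSubgroup.neg_mem _ h

lemma Good.hom {P : Ideal R} {β : Γ → ℂ} (hβ : Good e P W β) (φ : Γ' →* Γ) :
    Good e P W (fun x => β (φ x)) := by
  classical
  refine ⟨fun x => hβ.mem _, ?_⟩
  obtain ⟨d, hd, hQ⟩ := hβ.ex
  refine ⟨fun x => d (φ x), fun x => hd _, fun Q => ?_⟩
  obtain ⟨A, hA, c, hc, h1⟩ := hQ (Q.image φ)
  exact ⟨fun x => A (φ x), Comb.hom hA φ, c, hc, fun x hx => h1 _ (Finset.mem_image_of_mem _ hx)⟩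

end

section
variable {G : Type} [CommGroup G] {R : Subring ℂ} {e : ℕ}

/-- `x ↦ ∏ x_i ^ J_i` -/
def pj {r : ℕ} (H : Subgroup G) (J : Fin r → ℕ) : (Fin r → H) →* H where
  toFun x := ∏ i, x i ^ J i
  map_one' := by simp
  map_mul' x y := by
    rw [← Finset.prod_mul_distrib]
    refine Finset.prod_congr rfl fun i _ => ?_
    rw [Pi.mul_apply, mul_pow]

lemma pow_modA {x : G} {e : ℕ} (h : x ^ e = 1) (j : ℕ) :
    x ^ j = x ^ (j % e) := by
  conv_lhs => rw [← Nat.mod_add_div j e, pow_add, pow_mul, h, one_pow, mul_one]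

theorem tup_abs {ι : Type} [Fintype ι] (hR : ∀ z : ℂ, z ^ e = 1 → z ∈ R) (he : 0 < e)
    {P : Ideal R} (hP : P.IsMaximal)
    (hP1 : ∀ z : R, (z : ℂ) ^ e = 1 → 1 - z ∈ P) (r : ℕ) (H : Subgroup G)
    (hH : ∀ c ∈ H, c ^ e = 1) (W : ι → Submodule R ℂ) (β : ι → G → ℂ)
    (hg : ∀ i, Good e P (W i) (fun c : H => β i c)) {V : ℕ}
    (hV : ∏ x : ι × (Fin r → Fin e), β x.1 1 ∉ P ^ (V + 1) • ∏ x : ι × (Fin r → Fin e), W x.1) :
    ∃ K : Finset (Fin r → G), K.card ≤ 2 ^ V ∧ (∀ k ∈ K, ∀ j, k j ∈ H) ∧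
        ∀ c : Fin r → G, (∀ j, c j ∈ H) → ∃ k ∈ K, ∀ J : Fin r → ℕ, ∀ i,
          β i (∏ j, (c j * k j) ^ J j) ≠ 0 := by
  classical
  have hgg := Good.prod (Γ := Fin r → H) (e := e) hP.isPrime
    (univ : Finset (ι × (Fin r → Fin e)))
    (fun x => W x.1)
    (fun x (c : Fin r → H) => β x.1 ((pj H (fun i => (x.2 i : ℕ)) c : H) : G))
    (fun x _ => (hg x.1).hom (pj H (fun i => (x.2 i : ℕ))))
  obtain ⟨K, hK1, hK2⟩ := correction hR hP hP1 hgg (V := V) (by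
    have : ∏ x : ι × (Fin r → Fin e), β x.1 ((pj H (fun i => (x.2 i : ℕ)) 1 : H) : G) =
        ∏ x : ι × (Fin r → Fin e), β x.1 1 := by
      refine Finset.prod_congr rfl fun x _ => ?_
      rw [map_one, Subgroup.coe_one]
    rw [this]
    exact hV)
  refine ⟨(K.map (fun (c : Fin r → H) j => (c j : G))).toFinset, ?_, ?_, ?_⟩
  · exact (List.toFinset_card_le _).trans (by rwa [List.length_map])
  · intro k hk j
    rw [List.mem_toFinset, List.mem_map] at hk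
    obtain ⟨c, _, rfl⟩ := hk
    exact (c j).2
  · intro c hc
    obtain ⟨k, hk, h1⟩ := hK2 fun j => ⟨c j, hc j⟩
    refine ⟨fun j => (k j : G), ?_, fun J i => ?_⟩
    · rw [List.mem_toFinset, List.mem_map]
      exact ⟨k, hk, rfl⟩
    · have h2 := Finset.prod_ne_zero_iff.1 h1
        (i, fun j => ⟨J j % e, Nat.mod_lt _ he⟩) (Finset.mem_univ _)
      have h5 : ((pj H (fun j => J j % e) ((fun j => ⟨c j, hc j⟩) * k) : H) : G) =
          ∏ j, (c j * (k j : G)) ^ J j := by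
        show ((∏ j, ((⟨c j, hc j⟩ : H) * k j) ^ (J j % e) : H) : G) = _
        rw [← Subgroup.coe_subtype, map_prod]
        refine Finset.prod_congr rfl fun j _ => ?_
        rw [map_pow, map_mul, Subgroup.coe_subtype]
        exact (pow_modA (hH _ (H.mul_mem (hc j) (k j).2)) (J j)).symm
      rw [← h5]
      exact h2

end

end Pool.Agent.Y18.LP
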