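import Pool.Agent.Y18.LP.Abs
import Pool.Agent.Y18.LP.TupA

/-!
Tuples of families.
-/

set_option autoImplicit false

namespace Pool.Agent.Y18.LP

open Finset Pool.Agent.Y18.BSD

variable {ι : Type} [Fintype ι] {N : ι → ℕ} {f : ι → ℚ → ℂ} {a : ι → ℕ → ℂ}

/-- **a small set of corrections for tuples** -/
theorem tuples (hms : ∀ i, MS (N i) (f i) (a i)) (h0 : ∀ i, f i 0 ≠ 0) {l : ℕ} (hl : l.Prime)
    (n : ℕ) (lam : Ideal (integralClosure ℤ ℂ)) (hlam : lam.IsPrime)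
    (hmem : (l : integralClosure ℤ ℂ) ∈ lam) (r : ℕ) :
    ∃ V : ℕ, ∀ H : Subgroup Fam, Ok H (l ^ n) (AdS N a lam) →
      ∃ K : Finset (Fin r → Fam), K.card ≤ 2 ^ V ∧ (∀ k ∈ K, ∀ j, k j ∈ H) ∧
        ∀ c : Fin r → Fam, (∀ j, c j ∈ H) → ∃ k ∈ K, ∀ J : Fin r → ℕ, ∀ i,
          bt (f i) (∏ j, (c j * k j) ^ J j) ≠ 0 := by
  classical
  have he : 0 < l ^ n := pow_pos hl.pos n
  obtain ⟨R, hR0, P, al, hP, hR, hP1, hA⟩ := setup hms h0 hl n lam hlam hmem
  have hx : ∏ x : ι × (Fin r → Fin (l ^ n)), f x.1 0 ∈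
      ∏ x : ι × (Fin r → Fin (l ^ n)), Submodule.span R (Set.range (f x.1)) :=
    prod_mem' univ (fun x : ι × (Fin r → Fin (l ^ n)) => Submodule.span R (Set.range (f x.1))) _
      fun i _ => Submodule.subset_span ⟨0, rfl⟩
  obtain ⟨V, hV⟩ := krull hP.ne_top (fg_prod univ
    (fun x : ι × (Fin r → Fin (l ^ n)) => Submodule.span R (Set.range (f x.1)))
    fun i _ => span_fg (hms i.1).fin) hx (Finset.prod_ne_zero_iff.2 fun i _ => h0 i.1)
  refine ⟨V, fun H hH => ?_⟩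
  have hV' : ∏ x : ι × (Fin r → Fin (l ^ n)), bt (f x.1) 1 ∉ P ^ (V + 1) •
      ∏ x : ι × (Fin r → Fin (l ^ n)), Submodule.span R (Set.range (f x.1)) := by
    have : ∏ x : ι × (Fin r → Fin (l ^ n)), bt (f x.1) 1 =
        ∏ x : ι × (Fin r → Fin (l ^ n)), f x.1 0 :=
      Finset.prod_congr rfl fun x _ => bt_one (f x.1)
    rw [this]
    exact hV
  have hg : ∀ i, Good (l ^ n) P (Submodule.span R (Set.range (f i)))
      (fun c : H => bt (f i) (c : Fam)) := fun i =>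
    good (hms i) hR (al i) hP.isPrime hP1 hH (hA i)
  exact tup_abs (G := Fam) hR he hP hP1 r H (fun c hc => hH.pow c hc)
    (fun i => Submodule.span R (Set.range (f i))) (fun i c => bt (f i) c) hg hV'

end Pool.Agent.Y18.LP
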