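import Pool.Agent.Y18.LP.Core
import Pool.Agent.Y18.LP.Tup
import Pool.Agent.Y18.NF.Main

/-!
Elliptic curves over abelian fields of exponent a power of `l`.
-/

set_option autoImplicit false

open NumberField IsDedekindDomain UpperHalfPlane MatrixGroups CongruenceSubgroup

namespace Pool.Agent.Y18.LP

open Pool.Agent.Y18.BSD Pool.Agent.Y18.NF
open Pool.Agent.W263.BSD (pointCount GoodPrime IsLSeries)
open W165.CE (fac)

lemma bv0_ne {N : ℕ} [NeZero N] {a b : ℤ} {f : CuspForm (Gamma0 N : Subgroup (GL (Fin 2) ℝ)) 2}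
    (hΔ : 4 * a ^ 3 + 27 * b ^ 2 ≠ 0) (hf : IsFormOf a b N f) (h0 : RankZero a b) :
    bv f 0 ≠ 0 := by
  have hne : NeZero (dd ∅) := ⟨by simp [dd]⟩
  obtain ⟨G, hG, κ, hκ, h1⟩ := twist_lseries hΔ hf (T := ∅) (by simp)
  rw [disc_empty, one_pow, one_pow, mul_one, mul_one] at hG
  obtain ⟨F, hF, hF1⟩ := h0
  rw [isLSeries_unique hG hF, psi_one (bv f) (dd ∅) (by simp [dd])] at h1
  rw [← h1]
  exact mul_ne_zero hκ hF1

lemma exists_lam {l : ℕ} (hl : l.Prime) : ∃ lam : Ideal (integralClosure ℤ ℂ), lam.IsPrime ∧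
    (l : integralClosure ℤ ℂ) ∈ lam ∧ ∀ m : ℤ, (m : integralClosure ℤ ℂ) ∈ lam → (l : ℤ) ∣ m := by
  have hprime : (Ideal.span {(l : ℤ)}).IsPrime := by
    rw [Ideal.span_singleton_prime (by exact_mod_cast hl.ne_zero)]
    exact Nat.prime_iff_prime_int.1 hl
  obtain ⟨Q, -, hQ1, hQ2⟩ := Ideal.exists_ideal_over_prime_of_isIntegral
    (S := integralClosure ℤ ℂ) (Ideal.span {(l : ℤ)}) ⊥ (by
      intro x hx
      rw [Ideal.mem_comap, Ideal.mem_bot] at hx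
      have h1 : x = 0 := by
        have h2 := congrArg (fun y : integralClosure ℤ ℂ => (y : ℂ)) hx
        simpa using h2
      rw [h1]
      exact Ideal.zero_mem _)
  refine ⟨Q, hQ1, ?_, fun m hm => ?_⟩
  · have h1 : (l : ℤ) ∈ Ideal.comap (algebraMap ℤ (integralClosure ℤ ℂ)) Q := by
      rw [hQ2]
      exact Ideal.mem_span_singleton_self _
    rw [Ideal.mem_comap] at h1
    simpa using h1
  · have h1 : m ∈ Ideal.comap (algebraMap ℤ (integralClosure ℤ ℂ)) Q := by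
      rw [Ideal.mem_comap]
      simpa using hm
    rw [hQ2, Ideal.mem_span_singleton] at h1
    exact h1

/-- a nontrivial character of order a power of `l` -/
lemma dvd_sub_one {l n q : ℕ} (hl : l.Prime) (hq : q.Prime) {c : Fam} (hc : c ^ (l ^ n) = 1)
    (h : c q ≠ 1) : l ∣ q - 1 := by
  by_contra hcon
  apply h
  have hco : (l ^ n).Coprime (q - 1) :=
    Nat.Coprime.pow_left n ((Nat.Prime.coprime_iff_not_dvd hl).2 hcon)
  have hne : NeZero q := ⟨hq.ne_zero⟩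
  have hfact : Fact q.Prime := ⟨hq⟩
  have h1 : (c q) ^ (l ^ n) = 1 := by
    have := congrFun hc q
    simpa using this
  ext u
  have h2 : (c q u) ^ (l ^ n) = 1 := by
    have := DFunLike.congr_fun h1 u
    simpa using this
  have h3 : (c q u) ^ (q - 1) = 1 := by
    rw [← map_pow, ZMod.units_pow_card_sub_one_eq_one, map_one]
  have h4 := orderOf_dvd_of_pow_eq_one h2
  have h5 := orderOf_dvd_of_pow_eq_one h3
  have h6 : orderOf (c q u) = 1 := Nat.dvd_one.1 (hco ▸ Nat.dvd_gcd h4 h5)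
  rw [orderOf_eq_one_iff] at h6
  rw [h6]
  rfl

/-- admissible primes -/
def AdmL (a b : ℤ) (l q : ℕ) : Prop := GoodPrime a b q ∧ ¬ l ∣ pointCount a b q + 1

/-- the conditions on the group -/
structure HOk (m : ℕ) (a b : Fin m → ℤ) (l n : ℕ) (H : Subgroup Fam) : Prop where
  pow : ∀ c ∈ H, c ^ (l ^ n) = 1
  fin : ∀ c ∈ H, {q | c q ≠ 1}.Finite
  adm : ∀ c ∈ H, ∀ q, c q ≠ 1 → q.Prime ∧ ∀ i, AdmL (a i) (b i) l q

section
variable (m : ℕ) (a b : Fin m → ℤ) (hΔ : ∀ i, 4 * a i ^ 3 + 27 * b i ^ 2 ≠ 0)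
    (N : Fin m → ℕ) [∀ i, NeZero (N i)]
    (f : (i : Fin m) → CuspForm (Gamma0 (N i) : Subgroup (GL (Fin 2) ℝ)) 2)
    (hf : ∀ i, IsFormOf (a i) (b i) (N i) (f i))

include hf in
lemma ok_of {l n : ℕ} (hl : l.Prime) {H : Subgroup Fam} (hH : HOk m a b l n H)
    {lam : Ideal (integralClosure ℤ ℂ)}
    (hlam : ∀ m : ℤ, (m : integralClosure ℤ ℂ) ∈ lam → (l : ℤ) ∣ m) :
    Ok H (l ^ n) (AdS N (fun i => co (f i)) lam) := by
  refine ⟨hH.pow, hH.fin, fun c hc q hq => ?_⟩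
  obtain ⟨hqp, hadm⟩ := hH.adm c hc q hq
  refine ⟨hqp, fun i => ?_⟩
  obtain ⟨h1, h2⟩ := hadm i
  obtain ⟨h3, h4⟩ := (hf i).points q h1
  refine ⟨h3, fun x hx hx2 => ?_⟩
  have hx2 : (x : ℂ) = co (f i) q - 2 := hx2
  rw [h4] at hx2
  have h5 : x = (((q : ℤ) - pointCount (a i) (b i) q - 2 : ℤ) : integralClosure ℤ ℂ) := by
    apply Subtype.ext
    rw [hx2]
    push_cast
    rfl
  rw [h5] at hx
  have h6 := hlam _ hx
  have h7 := dvd_sub_one hl hqp (hH.pow c hc) hq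
  apply h2
  have h8 : (l : ℤ) ∣ ((q - 1 : ℕ) : ℤ) := by exact_mod_cast h7
  rw [Nat.cast_sub hqp.one_lt.le] at h8
  have h9 := dvd_sub h8 h6
  have h10 : ((q : ℤ) - (1 : ℕ) - ((q : ℤ) - pointCount (a i) (b i) q - 2)) =
      ((pointCount (a i) (b i) q + 1 : ℕ) : ℤ) := by
    push_cast
    ring
  rw [h10] at h9
  exact_mod_cast h9

include hΔ hf in
/-- **Infinite towers.** -/
theorem tower (h0 : ∀ i, RankZero (a i) (b i)) (l n : ℕ) (hl : l.Prime) (H : Subgroup Fam)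
    (hH : HOk m a b l n H) (hinf : (H : Set Fam).Infinite) :
    ∃ H0 : Subgroup Fam, H0 ≤ H ∧ (H0 : Set Fam).Infinite ∧
      ∀ (F : IntermediateField ℚ ℂ) [NumberField F],
        F ≤ IntermediateField.adjoin ℚ {x : ℂ | ∃ c ∈ H0,
          x = eta c (Complex.exp (2 * Real.pi * Complex.I / (dd (sp c) : ℕ)))} →
        ∀ i, RZ F (a i) (b i) (f i) := by
  obtain ⟨lam, h1, h2, h3⟩ := exists_lam hl
  have hms : ∀ i, MS (N i) (bv (f i)) (co (f i)) := fun i => by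
    obtain ⟨w, -, hfr⟩ := (hf i).newf
    exact ms_of (hf i).hrel hfr
  have hv : ∀ i, bv (f i) 0 ≠ 0 := fun i => bv0_ne (hΔ i) (hf i) (h0 i)
  obtain ⟨H0, -, hH0, hH1, hH2⟩ := infinite hms hv hl n lam h1 h2 H (ok_of m a b N f hf hl hH h3)
    hinf ⊥ bot_le (by
      intro c hc i
      rw [Subgroup.mem_bot] at hc
      rw [hc, bt_one]
      exact hv i)
  refine ⟨H0, hH0, hH1, fun F _ hF i => ?_⟩
  exact core (hΔ i) (hf i) H0 (fun c hc => hH.fin c (hH0 hc)) (fun c hc q hq => by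
    obtain ⟨hq1, hq2⟩ := hH.adm c (hH0 hc) q hq
    exact ⟨hq1, ((hf i).points q (hq2 i).1).1⟩) (fun c hc => hH2 c hc i) F hF

end

lemma mem_closure_tuple {G : Type} [CommGroup G] {e : ℕ} (he : 0 < e) {r : ℕ} (y : Fin r → G)
    (hy : ∀ j, y j ^ e = 1) {x : G} (hx : x ∈ Subgroup.closure (Set.range y)) :
    ∃ J : Fin r → ℕ, x = ∏ j, y j ^ J j := by
  classical
  induction hx using Subgroup.closure_induction with
  | mem x hx =>
    obtain ⟨j, rfl⟩ := hx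
    refine ⟨Pi.single j 1, ?_⟩
    rw [Finset.prod_eq_single j]
    · rw [Pi.single_eq_same, pow_one]
    · intro i _ hij
      rw [Pi.single_eq_of_ne hij, pow_zero]
    · intro h
      exact absurd (Finset.mem_univ j) h
  | one => exact ⟨0, by simp⟩
  | mul x x' _ _ h1 h2 =>
    obtain ⟨J, rfl⟩ := h1
    obtain ⟨J', rfl⟩ := h2
    refine ⟨J + J', ?_⟩
    rw [← Finset.prod_mul_distrib]
    exact Finset.prod_congr rfl fun j _ => by rw [Pi.add_apply, pow_add]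
  | inv x _ h =>
    obtain ⟨J, rfl⟩ := h
    refine ⟨fun j => (e - 1) * J j, ?_⟩
    rw [← Finset.prod_inv_distrib]
    refine Finset.prod_congr rfl fun j _ => ?_
    have h1 : y j ^ J j * y j ^ ((e - 1) * J j) = 1 := by
      rw [← pow_add]
      have h2 : J j + (e - 1) * J j = e * J j := by
        obtain ⟨k, rfl⟩ := Nat.exists_eq_succ_of_ne_zero he.ne'
        simp only [Nat.succ_eq_add_one, Nat.add_sub_cancel]
        ring
      rw [h2, pow_mul, hy, one_pow]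
    exact inv_eq_of_mul_eq_one_right h1

lemma closure_tuple {G : Type} [CommGroup G] {e : ℕ} (he : 0 < e) {r : ℕ} (y : Fin r → G)
    (hy : ∀ j, y j ^ e = 1) (H : Subgroup G) (hyH : ∀ j, y j ∈ H) :
    ∃ H0 : Subgroup G, H0 ≤ H ∧ (∀ J : Fin r → ℕ, ∏ j, y j ^ J j ∈ H0) ∧
      ∀ x ∈ H0, ∃ J : Fin r → ℕ, x = ∏ j, y j ^ J j := by
  refine ⟨Subgroup.closure (Set.range y), ?_, fun J => ?_, fun x hx => mem_closure_tuple he y hy hx⟩
  · rw [Subgroup.closure_le]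
    rintro _ ⟨j, rfl⟩
    exact hyH j
  · exact Subgroup.prod_mem _ fun j _ => Subgroup.pow_mem _
      (Subgroup.subset_closure (Set.mem_range_self j)) _

lemma closure_tuple' {e : ℕ} (he : 0 < e) {r : ℕ} (y : Fin r → Fam)
    (hy : ∀ j, y j ^ e = 1) (H : Subgroup Fam) (hyH : ∀ j, y j ∈ H) :
    ∃ H0 : Subgroup Fam, H0 ≤ H ∧ (∀ J : Fin r → ℕ, ∏ j, y j ^ J j ∈ H0) ∧
      ∀ x ∈ H0, ∃ J : Fin r → ℕ, x = ∏ j, y j ^ J j :=
  closure_tuple (G := Fam) he y hy H hyH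

section
variable (m : ℕ) (a b : Fin m → ℤ) (hΔ : ∀ i, 4 * a i ^ 3 + 27 * b i ^ 2 ≠ 0)
    (N : Fin m → ℕ) [∀ i, NeZero (N i)]
    (f : (i : Fin m) → CuspForm (Gamma0 (N i) : Subgroup (GL (Fin 2) ℝ)) 2)
    (hf : ∀ i, IsFormOf (a i) (b i) (N i) (f i))

include hΔ hf in
/-- **Abelian fields with `r` generators.** -/
theorem fields (h0 : ∀ i, RankZero (a i) (b i)) (l n r : ℕ) (hl : l.Prime) :
    ∃ V : ℕ, ∀ H : Subgroup Fam, HOk m a b l n H →
      ∃ K : Finset (Fin r → Fam), K.card ≤ 2 ^ V ∧ (∀ k ∈ K, ∀ j, k j ∈ H) ∧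
        ∀ c : Fin r → Fam, (∀ j, c j ∈ H) → ∃ k ∈ K,
          ∀ (F : IntermediateField ℚ ℂ) [NumberField F],
            F ≤ IntermediateField.adjoin ℚ {x : ℂ | ∃ J : Fin r → ℕ,
              x = eta (∏ j, (c j * k j) ^ J j) (Complex.exp (2 * Real.pi * Complex.I /
                (dd (sp (∏ j, (c j * k j) ^ J j)) : ℕ)))} →
            ∀ i, RZ F (a i) (b i) (f i) := by
  obtain ⟨lam, h1, h2, h3⟩ := exists_lam hl
  have hms : ∀ i, MS (N i) (bv (f i)) (co (f i)) := fun i => by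
    obtain ⟨w, -, hfr⟩ := (hf i).newf
    exact ms_of (hf i).hrel hfr
  have hv : ∀ i, bv (f i) 0 ≠ 0 := fun i => bv0_ne (hΔ i) (hf i) (h0 i)
  obtain ⟨V, hV⟩ := tuples hms hv hl n lam h1 h2 r
  refine ⟨V, fun H hH => ?_⟩
  obtain ⟨K, hK1, hK2, hK3⟩ := hV H (ok_of m a b N f hf hl hH h3)
  refine ⟨K, hK1, hK2, fun c hc => ?_⟩
  obtain ⟨k, hk, h4⟩ := hK3 c hc
  refine ⟨k, hk, fun F _ hF i => ?_⟩
  obtain ⟨H0, hH0H, hrep2, hrep⟩ := closure_tuple' (pow_pos hl.pos n) (fun j => c j * k j)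
    (fun j => hH.pow _ (H.mul_mem (hc j) (hK2 k hk j))) H (fun j => H.mul_mem (hc j) (hK2 k hk j))
  refine core (hΔ i) (hf i) H0 (fun c hc => hH.fin c (hH0H hc)) (fun c hc q hq => by
    obtain ⟨hq1, hq2⟩ := hH.adm c (hH0H hc) q hq
    exact ⟨hq1, ((hf i).points q (hq2 i).1).1⟩) (fun x hx => ?_) F (hF.trans ?_)
  · obtain ⟨J, rfl⟩ := hrep x hx
    exact h4 J i
  · refine IntermediateField.adjoin.mono ℚ _ _ ?_
    rintro x ⟨J, rfl⟩
    exact ⟨_, hrep2 J, rfl⟩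

end

end Pool.Agent.Y18.LP
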