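import Pool.Agent.Y18.LP.Char
import Pool.Agent.Y18.NF.Eu

/-!
Newforms: the modular symbols, and the twists by the characters of families.
-/

set_option autoImplicit false

open Complex Filter Topology UpperHalfPlane MatrixGroups CongruenceSubgroup ZMod

namespace Pool.Agent.Y18.LP

open Finset Pool.Agent.Y18.BSD Pool.Agent.Y18.NF
open Pool.Agent.TH940 (Fr)

variable {N : ℕ} [NeZero N] {f : CuspForm (Gamma0 N : Subgroup (GL (Fin 2) ℝ)) 2}

theorem ms_of (hrel : HRel f) {ε : ℂ} (hfr : Fr f ε) : MS N (bv f) (co f) := by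
  refine ⟨bv_period f, fun l hl hlN r => bv_hecke hrel hfr hl hlN r, ?_⟩
  obtain ⟨c0, hc0⟩ := bv_diff f hfr
  have h1 : Module.Finite ℤ (PG f) := finite_PG f
  have h2 : ((PG f).toIntSubmodule).FG := by
    rw [← Module.Finite.iff_fg]
    exact h1
  set W : Submodule ℤ ℂ := (PG f).toIntSubmodule ⊔ Submodule.span ℤ {c0} with hW
  have h3 : W.FG := h2.sup (Submodule.fg_span_singleton c0)
  have h4 : Submodule.span ℤ (Set.range (bv f)) ≤ W := by
    rw [Submodule.span_le]
    rintro _ ⟨r, rfl⟩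
    by_cases hr : r.den.Coprime N
    · have h5 : bv f r = (bv f r - c0) + c0 := by ring
      rw [h5]
      refine W.add_mem (Submodule.mem_sup_left (hc0 r hr)) (Submodule.mem_sup_right
        (Submodule.mem_span_singleton_self c0))
    · have h5 : bv f r = 0 := by
        unfold bv
        rw [if_neg hr]
      rw [h5]
      exact W.zero_mem
  have h5 : IsNoetherian ℤ W := isNoetherian_of_fg_of_noetherian W h3
  exact (isNoetherian_submodule.1 h5) _ h4

/-- the complete twisted `L`-function -/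
theorem tw_complete {w : ℝ} (hnf : W388.IsNewf N 2 f w) (hfr : Fr f (w : ℂ)) (hc : Cf N (co f))
    {c : Fam} (hfin : {q | c q ≠ 1}.Finite) (hp : ∀ q ∈ sp c, q.Prime ∧ ¬ q ∣ N) :
    ∃ G : ℂ → ℂ, Differentiable ℂ G ∧ (∀ s : ℂ, 3 / 2 < s.re →
      HasProd (fun p : Nat.Primes => ez N (co f) (cvl c p) s p) (G s)) ∧
      (bt (bv f) c⁻¹ ≠ 0 → G 1 ≠ 0) := by
  classical
  have hne : NeZero (dd (sp c)) := ⟨dd_ne_zero fun q hq => (hp q hq).1⟩
  have hco : Nat.Coprime (dd (sp c)) N := by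
    unfold dd
    rw [Nat.coprime_prod_left_iff]
    intro q hq
    exact (Nat.Prime.coprime_iff_not_dvd (hp q hq).1).2 (hp q hq).2
  obtain ⟨L, hL1, hL2, hL3⟩ := exists_L hnf hfr hc (dd (sp c)) (chi c)
    (chi_primitive c hfin fun q hq => (hp q hq).1) hco
  refine ⟨L, hL1, fun s hs => ?_, fun hb hL0 => ?_⟩
  · have h2 := hc.euler (chi c) hs
    rw [← hL2 s hs] at h2
    have h3 : (fun p : ℕ => if p.Prime then (lf N (co f) (chi c) s p)⁻¹ else 1) =
        Set.mulIndicator {p : ℕ | p.Prime} (fun p => (lf N (co f) (chi c) s p)⁻¹) := by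
      funext p
      by_cases hp : p.Prime
      · rw [if_pos hp, Set.mulIndicator_of_mem (show p ∈ {p : ℕ | p.Prime} from hp)]
      · rw [if_neg hp, Set.mulIndicator_of_notMem (show p ∉ {p : ℕ | p.Prime} from hp)]
    rw [h3] at h2
    have h4 := hasProd_subtype_iff_mulIndicator.2 h2
    refine (congrArg (fun g => HasProd g (L s)) (funext fun p : Nat.Primes => ?_)).mp h4
    show (lf N (co f) (chi c) s (p : ℕ))⁻¹ = _
    unfold lf ez
    rw [chi_nat]
    congr 2
    split_ifs with h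
    · simp
    · have hp0 : ((p : ℕ) : ℂ) ≠ 0 := by exact_mod_cast p.2.ne_zero
      have e : ((p : ℕ) : ℂ) ^ (1 - 2 * s) = (p : ℕ) * (((p : ℕ) : ℂ) ^ (-s)) ^ 2 := by
        rw [show (1 - 2 * s : ℂ) = 1 + ((-s) + (-s)) by ring, Complex.cpow_add _ _ hp0,
          Complex.cpow_add _ _ hp0, Complex.cpow_one]
        ring
      rw [e]
  · rw [hL0, mul_zero] at hL3
    apply hb
    rw [bt_inv (bv f) hfin]
    exact hL3.symm

end Pool.Agent.Y18.LP
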